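import Mathlib

/-!
# The factorisation `Γ = L · D₄`

In a group generated by `a, b, x` with the relations of the factor `Γ_C` of the group `K`, every
element is a product of an element of `⟨a, b⟩` and one of eight words in `a, b, x`.
-/

set_option autoImplicit false

namespace Pool.Agent.Helper79.KF

/-- the relations between `A`, `B` and `C` in `K` -/
structure Rel {G : Type*} [Group G] (a b x : G) : Prop where
  a3 : a ^ 3 = 1
  b3 : b ^ 3 = 1
  x2 : x ^ 2 = 1
  ax : (a * x) ^ 3 = 1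
  bx : (b * x) ^ 3 = 1
  h1 : (a * b * a⁻¹ * x) ^ 2 = 1
  h2 : (b * a * b⁻¹ * x) ^ 2 = 1

/-- the eight words -/
def dw {G : Type*} [Group G] (a b x : G) : Fin 8 → G :=
  ![1, x, a⁻¹ * x * a, b⁻¹ * x * b, x * (a⁻¹ * x * a), x * (b⁻¹ * x * b),
    (a⁻¹ * x * a) * (b⁻¹ * x * b), (b⁻¹ * x * b) * (a⁻¹ * x * a)]

theorem map_dw {G H : Type*} [Group G] [Group H] (f : G →* H) (a b x : G) (i : Fin 8) :
    f (dw a b x i) = dw (f a) (f b) (f x) i := by
  fin_cases i <;> simp [dw]

section facts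

variable {G : Type*} [Group G] {a b x : G}

/-- inverse of an involution -/
theorem inv_of_sq {y : G} (h : y ^ 2 = 1) : y⁻¹ = y := by
  rw [pow_two] at h
  exact inv_eq_of_mul_eq_one_left h

theorem sq_conj {y : G} (h : y ^ 2 = 1) (z : G) : (z⁻¹ * y * z) ^ 2 = 1 := by
  have : (z⁻¹ * y * z) ^ 2 = z⁻¹ * (y * y) * z := by rw [pow_two]; group
  rw [this, ← pow_two, h]; group

theorem x_mul_p (a3 : a ^ 3 = 1) (x2 : x ^ 2 = 1) (ax : (a * x) ^ 3 = 1) :
    x * (a⁻¹ * x * a) = a * x * a⁻¹ := by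
  have hx : x⁻¹ = x := inv_of_sq x2
  have e1 : x * a * x = a⁻¹ * x * a⁻¹ := by
    have h : a * (x * a * x) * (a * x) = 1 := by
      have : (a * x) ^ 3 = a * (x * a * x) * (a * x) := by rw [pow_three]; group
      rw [← this, ax]
    have h2 : x * a * x = a⁻¹ * x⁻¹ * a⁻¹ := by
      calc x * a * x = a⁻¹ * (a * (x * a * x) * (a * x)) * (a * x)⁻¹ := by group
        _ = a⁻¹ * x⁻¹ * a⁻¹ := by rw [h]; group
    rw [h2, hx]
  have e2 : x * a⁻¹ * x = a * x * a := by
    have : x * a⁻¹ * x = (x⁻¹ * a * x⁻¹)⁻¹ := by group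
    rw [this, hx, e1]
    have : (a⁻¹ * x * a⁻¹)⁻¹ = a * x⁻¹ * a := by group
    rw [this, hx]
  have a2 : a * a = a⁻¹ := by
    have : a * a = a * (a * a) * a⁻¹ := by group
    rw [this, ← pow_three, a3, one_mul]
  calc x * (a⁻¹ * x * a) = (x * a⁻¹ * x) * a := by group
    _ = a * x * (a * a) := by rw [e2]; group
    _ = a * x * a⁻¹ := by rw [a2]

theorem p_mul_x (a3 : a ^ 3 = 1) (x2 : x ^ 2 = 1) (ax : (a * x) ^ 3 = 1) :
    (a⁻¹ * x * a) * x = a * x * a⁻¹ := by
  have h := x_mul_p a3 x2 ax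
  have hx : x⁻¹ = x := inv_of_sq x2
  have h2 : (x * (a⁻¹ * x * a))⁻¹ = (a * x * a⁻¹)⁻¹ := by rw [h]
  have h3 : (x * (a⁻¹ * x * a))⁻¹ = (a⁻¹ * x⁻¹ * a) * x⁻¹ := by group
  have h4 : (a * x * a⁻¹)⁻¹ = a * x⁻¹ * a⁻¹ := by group
  rw [h3, h4, hx] at h2
  exact h2

theorem inverts (x2 : x ^ 2 = 1) (h1 : (a * b * a⁻¹ * x) ^ 2 = 1) :
    (a⁻¹ * x * a) * b = b⁻¹ * (a⁻¹ * x * a) := by
  have hx : x⁻¹ = x := inv_of_sq x2
  have h : a * b * a⁻¹ * x * (a * b * a⁻¹) * x = 1 := by
    have : (a * b * a⁻¹ * x) ^ 2 = a * b * a⁻¹ * x * (a * b * a⁻¹) * x := by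
      rw [pow_two]; group
    rw [← this, h1]
  have h2 : x * (a * b * a⁻¹) = (a * b * a⁻¹)⁻¹ * x := by
    calc x * (a * b * a⁻¹)
        = (a * b * a⁻¹)⁻¹ * (a * b * a⁻¹ * x * (a * b * a⁻¹) * x) * x⁻¹ := by group
      _ = (a * b * a⁻¹)⁻¹ * x := by rw [h, hx]; group
  calc (a⁻¹ * x * a) * b = a⁻¹ * (x * (a * b * a⁻¹)) * a := by group
    _ = b⁻¹ * (a⁻¹ * x * a) := by rw [h2]; group

end facts

section table

variable {G : Type*} [Group G] {a b x : G}

/-- all facts about `p = a⁻¹xa` and `q = b⁻¹xb` -/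
structure Facts (a b x p q : G) : Prop where
  x2 : x * x = 1
  p2 : p * p = 1
  q2 : q * q = 1
  px : p * x = x * p
  qx : q * x = x * q
  xa : x * a = a * p
  pa : p * a = a * (x * p)
  xpa : x * p * a = a * x
  xb : x * b = b * q
  qb : q * b = b * (x * q)
  xqb : x * q * b = b * x
  pb : p * b = b⁻¹ * p
  qa : q * a = a⁻¹ * q
  qp : q * p = x * p * q
  xa' : x * a⁻¹ = a⁻¹ * (x * p)
  pa' : p * a⁻¹ = a⁻¹ * x
  xb' : x * b⁻¹ = b⁻¹ * (x * q)
  qb' : q * b⁻¹ = b⁻¹ * x

theorem Rel.facts (h : Rel a b x) : Facts a b x (a⁻¹ * x * a) (b⁻¹ * x * b) := by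
  have hp := x_mul_p h.a3 h.x2 h.ax
  have hp' := p_mul_x h.a3 h.x2 h.ax
  have hq := x_mul_p h.b3 h.x2 h.bx
  have hq' := p_mul_x h.b3 h.x2 h.bx
  have i1 := inverts h.x2 h.h1
  have i2 := inverts h.x2 h.h2
  have a2 : a⁻¹ * a⁻¹ = a := by
    have : a⁻¹ * a⁻¹ = a * (a * (a * a))⁻¹ := by group
    rw [this, ← pow_three, h.a3, inv_one, mul_one]
  have b2 : b⁻¹ * b⁻¹ = b := by
    have : b⁻¹ * b⁻¹ = b * (b * (b * b))⁻¹ := by group
    rw [this, ← pow_three, h.b3, inv_one, mul_one]
  have a2' : a * a = a⁻¹ := by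
    have : a * a = a * (a * a) * a⁻¹ := by group
    rw [this, ← pow_three, h.a3, one_mul]
  have b2' : b * b = b⁻¹ := by
    have : b * b = b * (b * b) * b⁻¹ := by group
    rw [this, ← pow_three, h.b3, one_mul]
  have x2 : x * x = 1 := by rw [← pow_two]; exact h.x2
  have p2 : (a⁻¹ * x * a) * (a⁻¹ * x * a) = 1 := by rw [← pow_two]; exact sq_conj h.x2 a
  have q2 : (b⁻¹ * x * b) * (b⁻¹ * x * b) = 1 := by rw [← pow_two]; exact sq_conj h.x2 b
  refine ⟨x2, p2, q2, hp'.trans hp.symm, hq'.trans hq.symm, by group, ?_, ?_, by group, ?_, ?_,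
    i1, i2, ?_, ?_, ?_, ?_, ?_⟩
  · -- p a = a (x p)
    rw [hp]
    calc (a⁻¹ * x * a) * a = a⁻¹ * x * (a * a) := by group
      _ = a⁻¹ * x * a⁻¹ := by rw [a2']
      _ = (a * a) * x * a⁻¹ := by rw [a2']
      _ = a * (a * x * a⁻¹) := by group
  · rw [hp]; group
  · rw [hq]
    calc (b⁻¹ * x * b) * b = b⁻¹ * x * (b * b) := by group
      _ = b⁻¹ * x * b⁻¹ := by rw [b2']
      _ = (b * b) * x * b⁻¹ := by rw [b2']
      _ = b * (b * x * b⁻¹) := by group
  · rw [hq]; group
  · -- q p = x p q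
    set p := a⁻¹ * x * a with hpd
    set q := b⁻¹ * x * b with hqd
    have e1 : p * q * p = x * q := by
      have e2 : p * b⁻¹ * p = b := by
        have := i1
        calc p * b⁻¹ * p = p * (b⁻¹ * p) := by group
          _ = p * (p * b) := by rw [i1]
          _ = (p * p) * b := by group
          _ = b := by rw [p2, one_mul]
      have e3 : p * x * p = x := by
        calc p * x * p = (p * x) * p := rfl
          _ = (x * p) * p := by rw [hp'.trans hp.symm]
          _ = x * (p * p) := by group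
          _ = x := by rw [p2, mul_one]
      have e4 : p * b * p = b⁻¹ := by
        calc p * b * p = (p * b) * p := rfl
          _ = b⁻¹ * p * p := by rw [i1]
          _ = b⁻¹ * (p * p) := by group
          _ = b⁻¹ := by rw [p2, mul_one]
      calc p * q * p = (p * b⁻¹ * p) * ((p⁻¹ * x * p⁻¹) * (p * b * p)) := by
            rw [hqd]; group
        _ = b * (x * b⁻¹) := by
            have : p⁻¹ = p := inv_eq_of_mul_eq_one_left p2
            rw [this, e2, e3, e4]
        _ = x * q := by rw [hq]; group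
    calc q * p = (p * p) * q * p := by rw [p2, one_mul]
      _ = p * (p * q * p) := by group
      _ = p * (x * q) := by rw [e1]
      _ = (p * x) * q := by group
      _ = x * p * q := by rw [hp'.trans hp.symm]
  · rw [hp]; group
  · calc (a⁻¹ * x * a) * a⁻¹ = a⁻¹ * x := by group
      _ = a⁻¹ * x := rfl
  · rw [hq]; group
  · calc (b⁻¹ * x * b) * b⁻¹ = b⁻¹ * x := by group
      _ = b⁻¹ * x := rfl

/-- the words span all cosets -/
theorem Rel.factor (h : Rel a b x) {g : G} (hg : g ∈ Subgroup.closure {a, b, x}) :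
    ∃ l ∈ Subgroup.closure ({a, b} : Set G), ∃ i, g = l * dw a b x i := by
  have F := h.facts
  set p := a⁻¹ * x * a with hp
  set q := b⁻¹ * x * b with hq
  have hdw : dw a b x = ![1, x, p, q, x * p, x * q, p * q, q * p] := rfl
  have ha : a ∈ Subgroup.closure ({a, b} : Set G) := Subgroup.subset_closure (by simp)
  have hb : b ∈ Subgroup.closure ({a, b} : Set G) := Subgroup.subset_closure (by simp)
  have ha' := inv_mem ha
  have hb' := inv_mem hb
  have pqp : p * q * p = x * q := by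
    calc p * q * p = p * (q * p) := by group
      _ = (p * x) * p * q := by rw [F.qp]; group
      _ = x * (p * p) * q := by rw [F.px]; group
      _ = x * q := by rw [F.p2]; group
  -- the step: multiplication of a word by a letter
  have key : ∀ y ∈ ({a, b, x} : Set G), ∀ i : Fin 8,
      (∃ l ∈ Subgroup.closure ({a, b} : Set G), ∃ j, dw a b x i * y = l * dw a b x j) ∧
      (∃ l ∈ Subgroup.closure ({a, b} : Set G), ∃ j, dw a b x i * y⁻¹ = l * dw a b x j) := by
    have xqp : x * q * p = p * q := by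
      calc x * q * p = x * (q * p) := by group
        _ = (x * x) * p * q := by rw [F.qp]; group
        _ = p * q := by rw [F.x2]; group
    have xpq : x * p * q = q * p := F.qp.symm
    have Ka : ∀ i : Fin 8, ∃ l ∈ Subgroup.closure ({a, b} : Set G), ∃ j,
        dw a b x i * a = l * dw a b x j := by
      intro i
      rw [hdw]
      fin_cases i
      · exact ⟨a, ha, 0, by simp⟩
      · exact ⟨a, ha, 2, F.xa⟩
      · exact ⟨a, ha, 4, F.pa⟩
      · exact ⟨a⁻¹, ha', 3, F.qa⟩
      · exact ⟨a, ha, 1, F.xpa⟩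
      · refine ⟨a⁻¹, ha', 7, ?_⟩
        show x * q * a = a⁻¹ * (q * p)
        calc x * q * a = x * (q * a) := by group
          _ = (x * a⁻¹) * q := by rw [F.qa]; group
          _ = a⁻¹ * (x * p * q) := by rw [F.xa']; group
          _ = a⁻¹ * (q * p) := by rw [xpq]
      · refine ⟨a⁻¹, ha', 5, ?_⟩
        show p * q * a = a⁻¹ * (x * q)
        calc p * q * a = p * (q * a) := by group
          _ = (p * a⁻¹) * q := by rw [F.qa]; group
          _ = a⁻¹ * (x * q) := by rw [F.pa']; group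
      · refine ⟨a⁻¹, ha', 6, ?_⟩
        show q * p * a = a⁻¹ * (p * q)
        calc q * p * a = q * (p * a) := by group
          _ = (q * a) * (x * p) := by rw [F.pa]; group
          _ = a⁻¹ * ((q * x) * p) := by rw [F.qa]; group
          _ = a⁻¹ * (x * q * p) := by rw [F.qx]
          _ = a⁻¹ * (p * q) := by rw [xqp]
    have Kb : ∀ i : Fin 8, ∃ l ∈ Subgroup.closure ({a, b} : Set G), ∃ j,
        dw a b x i * b = l * dw a b x j := by
      intro i
      rw [hdw]
      fin_cases i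
      · exact ⟨b, hb, 0, by simp⟩
      · exact ⟨b, hb, 3, F.xb⟩
      · exact ⟨b⁻¹, hb', 2, F.pb⟩
      · exact ⟨b, hb, 5, F.qb⟩
      · refine ⟨b⁻¹, hb', 6, ?_⟩
        show x * p * b = b⁻¹ * (p * q)
        calc x * p * b = x * (p * b) := by group
          _ = (x * b⁻¹) * p := by rw [F.pb]; group
          _ = b⁻¹ * (x * q * p) := by rw [F.xb']; group
          _ = b⁻¹ * (p * q) := by rw [xqp]
      · exact ⟨b, hb, 1, F.xqb⟩
      · refine ⟨b⁻¹, hb', 7, ?_⟩
        show p * q * b = b⁻¹ * (q * p)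
        calc p * q * b = p * (q * b) := by group
          _ = (p * b) * (x * q) := by rw [F.qb]; group
          _ = b⁻¹ * ((p * x) * q) := by rw [F.pb]; group
          _ = b⁻¹ * (x * p * q) := by rw [F.px]
          _ = b⁻¹ * (q * p) := by rw [xpq]
      · refine ⟨b⁻¹, hb', 4, ?_⟩
        show q * p * b = b⁻¹ * (x * p)
        calc q * p * b = q * (p * b) := by group
          _ = (q * b⁻¹) * p := by rw [F.pb]; group
          _ = b⁻¹ * (x * p) := by rw [F.qb']; group
    have Kx : ∀ i : Fin 8, ∃ l ∈ Subgroup.closure ({a, b} : Set G), ∃ j,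
        dw a b x i * x = l * dw a b x j := by
      intro i
      rw [hdw]
      have h1 := one_mem (Subgroup.closure ({a, b} : Set G))
      fin_cases i
      · exact ⟨1, h1, 1, by simp⟩
      · exact ⟨1, h1, 0, by simpa using F.x2⟩
      · exact ⟨1, h1, 4, by simpa using F.px⟩
      · exact ⟨1, h1, 5, by simpa using F.qx⟩
      · refine ⟨1, h1, 2, ?_⟩
        show x * p * x = 1 * p
        calc x * p * x = x * (p * x) := by group
          _ = (x * x) * p := by rw [F.px]; group
          _ = 1 * p := by rw [F.x2]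
      · refine ⟨1, h1, 3, ?_⟩
        show x * q * x = 1 * q
        calc x * q * x = x * (q * x) := by group
          _ = (x * x) * q := by rw [F.qx]; group
          _ = 1 * q := by rw [F.x2]
      · refine ⟨1, h1, 7, ?_⟩
        show p * q * x = 1 * (q * p)
        calc p * q * x = p * (q * x) := by group
          _ = (p * x) * q := by rw [F.qx]; group
          _ = x * p * q := by rw [F.px]
          _ = 1 * (q * p) := by rw [xpq, one_mul]
      · refine ⟨1, h1, 6, ?_⟩
        show q * p * x = 1 * (p * q)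
        calc q * p * x = q * (p * x) := by group
          _ = (q * x) * p := by rw [F.px]; group
          _ = x * q * p := by rw [F.qx]
          _ = 1 * (p * q) := by rw [xqp, one_mul]
    have sq : ∀ y : G, (∀ i : Fin 8, ∃ l ∈ Subgroup.closure ({a, b} : Set G), ∃ j,
        dw a b x i * y = l * dw a b x j) → ∀ i : Fin 8,
        ∃ l ∈ Subgroup.closure ({a, b} : Set G), ∃ j,
        dw a b x i * (y * y) = l * dw a b x j := by
      intro y hy i
      obtain ⟨l, hl, j, hj⟩ := hy i
      obtain ⟨l', hl', k, hk⟩ := hy j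
      exact ⟨l * l', mul_mem hl hl', k, by rw [← mul_assoc, hj, mul_assoc, hk, mul_assoc]⟩
    have ia : a⁻¹ = a * a := by
      have : a * a = a * (a * a) * a⁻¹ := by group
      rw [this, ← pow_three, h.a3, one_mul]
    have ib : b⁻¹ = b * b := by
      have : b * b = b * (b * b) * b⁻¹ := by group
      rw [this, ← pow_three, h.b3, one_mul]
    have ix : x⁻¹ = x := inv_eq_of_mul_eq_one_left F.x2
    intro y hy i
    rcases hy with rfl | rfl | hy
    · exact ⟨Ka i, by rw [ia]; exact sq _ Ka i⟩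
    · exact ⟨Kb i, by rw [ib]; exact sq _ Kb i⟩
    · obtain rfl : y = x := hy
      exact ⟨Kx i, by rw [ix]; exact Kx i⟩
  induction hg using Subgroup.closure_induction_right with
  | one => exact ⟨1, one_mem _, 0, by simp [hdw]⟩
  | mul_right g hg y hy ih =>
    obtain ⟨l, hl, i, rfl⟩ := ih
    obtain ⟨⟨l', hl', j, hj⟩, -⟩ := key y hy i
    exact ⟨l * l', mul_mem hl hl', j, by rw [mul_assoc, hj, mul_assoc]⟩
  | mul_inv_cancel g hg y hy ih =>
    obtain ⟨l, hl, i, rfl⟩ := ih
    obtain ⟨-, ⟨l', hl', j, hj⟩⟩ := key y hy i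
    exact ⟨l * l', mul_mem hl hl', j, by rw [mul_assoc, hj, mul_assoc]⟩

/-- a nontrivial word in a subgroup containing `a` and `b` forces `x` into it -/
theorem Rel.mem_of_dw (h : Rel a b x) {H : Subgroup G} (ha : a ∈ H) (hb : b ∈ H) {i : Fin 8}
    (hi : dw a b x i ∈ H) : i = 0 ∨ x ∈ H := by
  have F := h.facts
  set p := a⁻¹ * x * a with hp
  set q := b⁻¹ * x * b with hq
  have hdw : dw a b x = ![1, x, p, q, x * p, x * q, p * q, q * p] := rfl
  have cp : p ∈ H → x ∈ H := by
    intro hpH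
    have : x = a * p * a⁻¹ := by rw [hp]; group
    rw [this]; exact mul_mem (mul_mem ha hpH) (inv_mem ha)
  have cq : q ∈ H → x ∈ H := by
    intro hqH
    have : x = b * q * b⁻¹ := by rw [hq]; group
    rw [this]; exact mul_mem (mul_mem hb hqH) (inv_mem hb)
  have pqpq : (p * q) * (p * q) = x := by
    calc (p * q) * (p * q) = p * (q * p) * q := by group
      _ = (p * x) * p * (q * q) := by rw [F.qp]; group
      _ = x * (p * p) * (q * q) := by rw [F.px]; group
      _ = x := by rw [F.p2, F.q2]; group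
  rw [hdw] at hi
  fin_cases i
  · exact Or.inl rfl
  · exact Or.inr hi
  · exact Or.inr (cp hi)
  · exact Or.inr (cq hi)
  · -- x p
    refine Or.inr ?_
    have h1 : x * p ∈ H := hi
    have h2 : x = a⁻¹ * (x * p) * a := by
      calc x = a⁻¹ * (a * x) := by group
        _ = a⁻¹ * (x * p * a) := by rw [F.xpa]
        _ = a⁻¹ * (x * p) * a := by group
    rw [h2]; exact mul_mem (mul_mem (inv_mem ha) h1) ha
  · refine Or.inr ?_
    have h1 : x * q ∈ H := hi
    have h2 : x = b⁻¹ * (x * q) * b := by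
      calc x = b⁻¹ * (b * x) := by group
        _ = b⁻¹ * (x * q * b) := by rw [F.xqb]
        _ = b⁻¹ * (x * q) * b := by group
    rw [h2]; exact mul_mem (mul_mem (inv_mem hb) h1) hb
  · refine Or.inr ?_
    have h1 : p * q ∈ H := hi
    rw [← pqpq]; exact mul_mem h1 h1
  · refine Or.inr ?_
    have h1 : q * p ∈ H := hi
    have h2 : x = (q * p)⁻¹ * (q * p)⁻¹ := by
      have h3 : x⁻¹ = x := inv_eq_of_mul_eq_one_left F.x2
      have h4 : p⁻¹ = p := inv_eq_of_mul_eq_one_left F.p2
      have h5 : q⁻¹ = q := inv_eq_of_mul_eq_one_left F.q2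
      rw [mul_inv_rev, h4, h5, pqpq]
    rw [h2]; exact mul_mem (inv_mem h1) (inv_mem h1)

end table

end Pool.Agent.Helper79.KF
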