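import Pool.Agent.Helper79.KF.Finite

/-!
# The group `K`
-/

set_option autoImplicit false
set_option linter.unusedSimpArgs false

open scoped MatrixGroups

namespace Pool.Agent.Helper79.KF

/-- The 22 relators of `K` in the letters `A, …, F`. -/
def rels : Set (FreeGroup (Fin 6)) :=
  {FreeGroup.of (0 : Fin 6) ^ 3,
    FreeGroup.of (1 : Fin 6) ^ 3,
    FreeGroup.of (2 : Fin 6) ^ 2,
    FreeGroup.of (3 : Fin 6) ^ 2,
    FreeGroup.of (4 : Fin 6) ^ 2,
    FreeGroup.of (5 : Fin 6) ^ 2,
    (FreeGroup.of (0 : Fin 6) * FreeGroup.of (2 : Fin 6)) ^ 3,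
    (FreeGroup.of (0 : Fin 6) * FreeGroup.of (3 : Fin 6)) ^ 3,
    (FreeGroup.of (0 : Fin 6) * FreeGroup.of (4 : Fin 6)) ^ 3,
    (FreeGroup.of (0 : Fin 6) * FreeGroup.of (5 : Fin 6)) ^ 3,
    (FreeGroup.of (1 : Fin 6) * FreeGroup.of (2 : Fin 6)) ^ 3,
    (FreeGroup.of (1 : Fin 6) * FreeGroup.of (3 : Fin 6)) ^ 3,
    (FreeGroup.of (1 : Fin 6) * FreeGroup.of (4 : Fin 6)) ^ 3,
    (FreeGroup.of (1 : Fin 6) * FreeGroup.of (5 : Fin 6)) ^ 3,
    (FreeGroup.of (0 : Fin 6) * FreeGroup.of (1 : Fin 6) * (FreeGroup.of (0 : Fin 6))⁻¹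
      * FreeGroup.of (2 : Fin 6)) ^ 2,
    (FreeGroup.of (0 : Fin 6) * FreeGroup.of (1 : Fin 6) * (FreeGroup.of (0 : Fin 6))⁻¹
      * FreeGroup.of (3 : Fin 6)) ^ 2,
    ((FreeGroup.of (0 : Fin 6))⁻¹ * FreeGroup.of (1 : Fin 6) * FreeGroup.of (0 : Fin 6)
      * FreeGroup.of (4 : Fin 6)) ^ 2,
    ((FreeGroup.of (0 : Fin 6))⁻¹ * FreeGroup.of (1 : Fin 6) * FreeGroup.of (0 : Fin 6)
      * FreeGroup.of (5 : Fin 6)) ^ 2,
    (FreeGroup.of (1 : Fin 6) * FreeGroup.of (0 : Fin 6) * (FreeGroup.of (1 : Fin 6))⁻¹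
      * FreeGroup.of (2 : Fin 6)) ^ 2,
    ((FreeGroup.of (1 : Fin 6))⁻¹ * FreeGroup.of (0 : Fin 6) * FreeGroup.of (1 : Fin 6)
      * FreeGroup.of (3 : Fin 6)) ^ 2,
    (FreeGroup.of (1 : Fin 6) * FreeGroup.of (0 : Fin 6) * (FreeGroup.of (1 : Fin 6))⁻¹
      * FreeGroup.of (4 : Fin 6)) ^ 2,
    ((FreeGroup.of (1 : Fin 6))⁻¹ * FreeGroup.of (0 : Fin 6) * FreeGroup.of (1 : Fin 6)
      * FreeGroup.of (5 : Fin 6)) ^ 2}

/-- The group `K`. -/
abbrev K : Type := PresentedGroup rels

/-- The generators `A, …, F` of `K`. -/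
def gen (i : Fin 6) : K := PresentedGroup.of i

section

variable {G : Type*} [Group G]

theorem inv_mul_cube {a x : G} (x2 : x ^ 2 = 1) (h : (a * x) ^ 3 = 1) : (a⁻¹ * x) ^ 3 = 1 := by
  have ix : x⁻¹ = x := inv_of_sq x2
  have e : (a⁻¹ * x) ^ 3 = a⁻¹ * ((a * x) ^ 3)⁻¹ * a := by
    have h1 : ((a * x) ^ 3)⁻¹ = (x * a⁻¹) * ((x * a⁻¹) * (x * a⁻¹)) := by
      rw [← inv_pow, mul_inv_rev, ix, pow_three]
    rw [h1, pow_three]; group
  rw [e, h]; group

theorem inv_mul_sq {g x : G} (x2 : x ^ 2 = 1) (h : (g * x) ^ 2 = 1) : (g⁻¹ * x) ^ 2 = 1 := by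
  have ix : x⁻¹ = x := inv_of_sq x2
  have e : (g⁻¹ * x) ^ 2 = g⁻¹ * ((g * x) ^ 2)⁻¹ * g := by
    have h1 : ((g * x) ^ 2)⁻¹ = (x * g⁻¹) * (x * g⁻¹) := by
      rw [← inv_pow, mul_inv_rev, ix, pow_two]
    rw [h1, pow_two]; group
  rw [e, h]; group

/-- the relators hold in the images -/
structure AllRel {G : Type*} [Group G] (g : Fin 6 → G) : Prop where
  relC : Rel (g 0) (g 1) (g 2)
  relD : Rel (g 0) (g 1)⁻¹ (g 3)
  relE : Rel (g 0)⁻¹ (g 1) (g 4)
  relF : Rel (g 0)⁻¹ (g 1)⁻¹ (g 5)

theorem allRel_aux (ψ : FreeGroup (Fin 6) →* G) (h : ∀ r ∈ rels, ψ r = 1) :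
    AllRel (fun i => ψ (FreeGroup.of i)) := by
  suffices H : ∀ a b c d e f : G, ψ (FreeGroup.of 0) = a → ψ (FreeGroup.of 1) = b →
      ψ (FreeGroup.of 2) = c → ψ (FreeGroup.of 3) = d → ψ (FreeGroup.of 4) = e →
      ψ (FreeGroup.of 5) = f → Rel a b c ∧ Rel a b⁻¹ d ∧ Rel a⁻¹ b e ∧ Rel a⁻¹ b⁻¹ f by
    obtain ⟨h1, h2, h3, h4⟩ := H _ _ _ _ _ _ rfl rfl rfl rfl rfl rfl
    exact ⟨h1, h2, h3, h4⟩
  intro a b c d e f va vb vc vd ve vf
  have a3 := h (FreeGroup.of (0 : Fin 6) ^ 3)
    (by unfold rels; repeat (first | with_reducible exact Set.mem_insert _ _ | with_reducible exact Set.mem_singleton _ | with_reducible apply Set.mem_insert_of_mem))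
  simp only [map_pow, map_mul, map_inv, va, vb, vc, vd, ve, vf] at a3
  have b3 := h (FreeGroup.of (1 : Fin 6) ^ 3)
    (by unfold rels; repeat (first | with_reducible exact Set.mem_insert _ _ | with_reducible exact Set.mem_singleton _ | with_reducible apply Set.mem_insert_of_mem))
  simp only [map_pow, map_mul, map_inv, va, vb, vc, vd, ve, vf] at b3
  have c2 := h (FreeGroup.of (2 : Fin 6) ^ 2)
    (by unfold rels; repeat (first | with_reducible exact Set.mem_insert _ _ | with_reducible exact Set.mem_singleton _ | with_reducible apply Set.mem_insert_of_mem))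
  simp only [map_pow, map_mul, map_inv, va, vb, vc, vd, ve, vf] at c2
  have d2 := h (FreeGroup.of (3 : Fin 6) ^ 2)
    (by unfold rels; repeat (first | with_reducible exact Set.mem_insert _ _ | with_reducible exact Set.mem_singleton _ | with_reducible apply Set.mem_insert_of_mem))
  simp only [map_pow, map_mul, map_inv, va, vb, vc, vd, ve, vf] at d2
  have e2 := h (FreeGroup.of (4 : Fin 6) ^ 2)
    (by unfold rels; repeat (first | with_reducible exact Set.mem_insert _ _ | with_reducible exact Set.mem_singleton _ | with_reducible apply Set.mem_insert_of_mem))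
  simp only [map_pow, map_mul, map_inv, va, vb, vc, vd, ve, vf] at e2
  have f2 := h (FreeGroup.of (5 : Fin 6) ^ 2)
    (by unfold rels; repeat (first | with_reducible exact Set.mem_insert _ _ | with_reducible exact Set.mem_singleton _ | with_reducible apply Set.mem_insert_of_mem))
  simp only [map_pow, map_mul, map_inv, va, vb, vc, vd, ve, vf] at f2
  have ac := h ((FreeGroup.of (0 : Fin 6) * FreeGroup.of (2 : Fin 6)) ^ 3)
    (by unfold rels; repeat (first | with_reducible exact Set.mem_insert _ _ | with_reducible exact Set.mem_singleton _ | with_reducible apply Set.mem_insert_of_mem))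
  simp only [map_pow, map_mul, map_inv, va, vb, vc, vd, ve, vf] at ac
  have bc := h ((FreeGroup.of (1 : Fin 6) * FreeGroup.of (2 : Fin 6)) ^ 3)
    (by unfold rels; repeat (first | with_reducible exact Set.mem_insert _ _ | with_reducible exact Set.mem_singleton _ | with_reducible apply Set.mem_insert_of_mem))
  simp only [map_pow, map_mul, map_inv, va, vb, vc, vd, ve, vf] at bc
  have ad := h ((FreeGroup.of (0 : Fin 6) * FreeGroup.of (3 : Fin 6)) ^ 3)
    (by unfold rels; repeat (first | with_reducible exact Set.mem_insert _ _ | with_reducible exact Set.mem_singleton _ | with_reducible apply Set.mem_insert_of_mem))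
  simp only [map_pow, map_mul, map_inv, va, vb, vc, vd, ve, vf] at ad
  have bd := h ((FreeGroup.of (1 : Fin 6) * FreeGroup.of (3 : Fin 6)) ^ 3)
    (by unfold rels; repeat (first | with_reducible exact Set.mem_insert _ _ | with_reducible exact Set.mem_singleton _ | with_reducible apply Set.mem_insert_of_mem))
  simp only [map_pow, map_mul, map_inv, va, vb, vc, vd, ve, vf] at bd
  have ae := h ((FreeGroup.of (0 : Fin 6) * FreeGroup.of (4 : Fin 6)) ^ 3)
    (by unfold rels; repeat (first | with_reducible exact Set.mem_insert _ _ | with_reducible exact Set.mem_singleton _ | with_reducible apply Set.mem_insert_of_mem))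
  simp only [map_pow, map_mul, map_inv, va, vb, vc, vd, ve, vf] at ae
  have be := h ((FreeGroup.of (1 : Fin 6) * FreeGroup.of (4 : Fin 6)) ^ 3)
    (by unfold rels; repeat (first | with_reducible exact Set.mem_insert _ _ | with_reducible exact Set.mem_singleton _ | with_reducible apply Set.mem_insert_of_mem))
  simp only [map_pow, map_mul, map_inv, va, vb, vc, vd, ve, vf] at be
  have af := h ((FreeGroup.of (0 : Fin 6) * FreeGroup.of (5 : Fin 6)) ^ 3)
    (by unfold rels; repeat (first | with_reducible exact Set.mem_insert _ _ | with_reducible exact Set.mem_singleton _ | with_reducible apply Set.mem_insert_of_mem))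
  simp only [map_pow, map_mul, map_inv, va, vb, vc, vd, ve, vf] at af
  have bf := h ((FreeGroup.of (1 : Fin 6) * FreeGroup.of (5 : Fin 6)) ^ 3)
    (by unfold rels; repeat (first | with_reducible exact Set.mem_insert _ _ | with_reducible exact Set.mem_singleton _ | with_reducible apply Set.mem_insert_of_mem))
  simp only [map_pow, map_mul, map_inv, va, vb, vc, vd, ve, vf] at bf
  have h1c := h ((FreeGroup.of (0 : Fin 6) * FreeGroup.of (1 : Fin 6) * (FreeGroup.of (0 : Fin 6))⁻¹ * FreeGroup.of (2 : Fin 6)) ^ 2)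
    (by unfold rels; repeat (first | with_reducible exact Set.mem_insert _ _ | with_reducible exact Set.mem_singleton _ | with_reducible apply Set.mem_insert_of_mem))
  simp only [map_pow, map_mul, map_inv, va, vb, vc, vd, ve, vf] at h1c
  have h2c := h ((FreeGroup.of (1 : Fin 6) * FreeGroup.of (0 : Fin 6) * (FreeGroup.of (1 : Fin 6))⁻¹ * FreeGroup.of (2 : Fin 6)) ^ 2)
    (by unfold rels; repeat (first | with_reducible exact Set.mem_insert _ _ | with_reducible exact Set.mem_singleton _ | with_reducible apply Set.mem_insert_of_mem))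
  simp only [map_pow, map_mul, map_inv, va, vb, vc, vd, ve, vf] at h2c
  have h1d := h ((FreeGroup.of (0 : Fin 6) * FreeGroup.of (1 : Fin 6) * (FreeGroup.of (0 : Fin 6))⁻¹ * FreeGroup.of (3 : Fin 6)) ^ 2)
    (by unfold rels; repeat (first | with_reducible exact Set.mem_insert _ _ | with_reducible exact Set.mem_singleton _ | with_reducible apply Set.mem_insert_of_mem))
  simp only [map_pow, map_mul, map_inv, va, vb, vc, vd, ve, vf] at h1d
  have h2d := h (((FreeGroup.of (1 : Fin 6))⁻¹ * FreeGroup.of (0 : Fin 6) * FreeGroup.of (1 : Fin 6) * FreeGroup.of (3 : Fin 6)) ^ 2)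
    (by unfold rels; repeat (first | with_reducible exact Set.mem_insert _ _ | with_reducible exact Set.mem_singleton _ | with_reducible apply Set.mem_insert_of_mem))
  simp only [map_pow, map_mul, map_inv, va, vb, vc, vd, ve, vf] at h2d
  have h1e := h (((FreeGroup.of (0 : Fin 6))⁻¹ * FreeGroup.of (1 : Fin 6) * FreeGroup.of (0 : Fin 6) * FreeGroup.of (4 : Fin 6)) ^ 2)
    (by unfold rels; repeat (first | with_reducible exact Set.mem_insert _ _ | with_reducible exact Set.mem_singleton _ | with_reducible apply Set.mem_insert_of_mem))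
  simp only [map_pow, map_mul, map_inv, va, vb, vc, vd, ve, vf] at h1e
  have h2e := h ((FreeGroup.of (1 : Fin 6) * FreeGroup.of (0 : Fin 6) * (FreeGroup.of (1 : Fin 6))⁻¹ * FreeGroup.of (4 : Fin 6)) ^ 2)
    (by unfold rels; repeat (first | with_reducible exact Set.mem_insert _ _ | with_reducible exact Set.mem_singleton _ | with_reducible apply Set.mem_insert_of_mem))
  simp only [map_pow, map_mul, map_inv, va, vb, vc, vd, ve, vf] at h2e
  have h1f := h (((FreeGroup.of (0 : Fin 6))⁻¹ * FreeGroup.of (1 : Fin 6) * FreeGroup.of (0 : Fin 6) * FreeGroup.of (5 : Fin 6)) ^ 2)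
    (by unfold rels; repeat (first | with_reducible exact Set.mem_insert _ _ | with_reducible exact Set.mem_singleton _ | with_reducible apply Set.mem_insert_of_mem))
  simp only [map_pow, map_mul, map_inv, va, vb, vc, vd, ve, vf] at h1f
  have h2f := h (((FreeGroup.of (1 : Fin 6))⁻¹ * FreeGroup.of (0 : Fin 6) * FreeGroup.of (1 : Fin 6) * FreeGroup.of (5 : Fin 6)) ^ 2)
    (by unfold rels; repeat (first | with_reducible exact Set.mem_insert _ _ | with_reducible exact Set.mem_singleton _ | with_reducible apply Set.mem_insert_of_mem))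
  simp only [map_pow, map_mul, map_inv, va, vb, vc, vd, ve, vf] at h2f
  have ia : (a⁻¹) ^ 3 = 1 := by rw [inv_pow, a3, inv_one]
  have ib : (b⁻¹) ^ 3 = 1 := by rw [inv_pow, b3, inv_one]
  refine ⟨⟨a3, b3, c2, ac, bc, h1c, h2c⟩, ⟨a3, ib, d2, ad, inv_mul_cube d2 bd, ?_, ?_⟩,
    ⟨ia, b3, e2, inv_mul_cube e2 ae, be, ?_, ?_⟩,
    ⟨ia, ib, f2, inv_mul_cube f2 af, inv_mul_cube f2 bf, ?_, ?_⟩⟩
  · have := inv_mul_sq d2 h1d
    rwa [show (a * b * a⁻¹)⁻¹ = a * b⁻¹ * a⁻¹ by group] at this
  · rw [inv_inv]; exact h2d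
  · rw [inv_inv]; exact h1e
  · have := inv_mul_sq e2 h2e
    rwa [show (b * a * b⁻¹)⁻¹ = b * a⁻¹ * b⁻¹ by group] at this
  · have := inv_mul_sq f2 h1f
    rw [inv_inv]
    rwa [show (a⁻¹ * b * a)⁻¹ = a⁻¹ * b⁻¹ * a by group] at this
  · have := inv_mul_sq f2 h2f
    rw [inv_inv]
    rwa [show (b⁻¹ * a * b)⁻¹ = b⁻¹ * a⁻¹ * b by group] at this

theorem allRel (φ : K →* G) : AllRel (fun i => φ (gen i)) :=
  allRel_aux (φ.comp (PresentedGroup.mk rels)) fun r hr => by
    rw [MonoidHom.comp_apply, PresentedGroup.one_of_mem hr, map_one]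

/-- a homomorphism is determined by the generators -/
theorem range_le (φ : K →* G) {H : Subgroup G} (h : ∀ i, φ (gen i) ∈ H) : φ.range ≤ H := by
  rw [MonoidHom.range_eq_map, ← PresentedGroup.closure_range_of rels, MonoidHom.map_closure,
    Subgroup.closure_le]
  rintro _ ⟨_, ⟨i, rfl⟩, rfl⟩
  exact h i

theorem generated {Q : Type*} [Group Q] [Finite Q] (φ : K →* Q) :
    φ.range = Subgroup.closure {φ (gen 0), φ (gen 1)} := by
  have R := allRel φ
  have hC := R.relC
  have hD := R.relD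
  have hE := R.relE
  have hF := R.relF
  apply le_antisymm
  · apply range_le
    have ha : φ (gen 0) ∈ Subgroup.closure {φ (gen 0), φ (gen 1)} :=
      Subgroup.subset_closure (by simp)
    have hb : φ (gen 1) ∈ Subgroup.closure {φ (gen 0), φ (gen 1)} :=
      Subgroup.subset_closure (by simp)
    obtain ⟨kC, kF⟩ := c_and_f hC hF
    obtain ⟨kD, kE⟩ := c_and_f hD (by rw [inv_inv]; exact hE)
    rw [closure_inv_right] at kD kE
    intro i
    fin_cases i
    · exact ha
    · exact hb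
    · exact kC
    · exact kD
    · exact kE
    · exact kF
  · rw [Subgroup.closure_le]
    rintro y (rfl | hy)
    · exact ⟨gen 0, rfl⟩
    · obtain rfl : y = φ (gen 1) := hy
      exact ⟨gen 1, rfl⟩

theorem trivial_pgl {F : Type*} [Field F] (φ : K →* PGL(2, F)) : φ = 1 := by
  have R := allRel φ
  have hC := R.relC
  have hD := R.relD
  have hE := R.relE
  have hF := R.relF
  have ha : φ (gen 0) = 1 := no_pgl hC hD
  -- if `A` dies then so do all generators
  have kill : ∀ b x : PGL(2, F), Rel (1 : PGL(2, F)) b x → x = 1 ∧ b = 1 := by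
    intro b x h
    have hx : x = 1 := by
      have h1 := h.ax
      rw [one_mul] at h1
      exact pow3_pow2 h1 h.x2
    refine ⟨hx, ?_⟩
    have h2 := h.h1
    rw [hx, one_mul, inv_one, mul_one, mul_one] at h2
    exact pow3_pow2 h.b3 h2
  simp only [ha, inv_one] at hC hD hE hF
  obtain ⟨kc, kb⟩ := kill _ _ hC
  obtain ⟨kd, -⟩ := kill _ _ hD
  obtain ⟨ke, -⟩ := kill _ _ hE
  obtain ⟨kf, -⟩ := kill _ _ hF
  have h : φ.range ≤ ⊥ := by
    apply range_le
    intro i
    rw [Subgroup.mem_bot]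
    fin_cases i
    · exact ha
    · exact kb
    · exact kc
    · exact kd
    · exact ke
    · exact kf
  refine MonoidHom.ext fun k => ?_
  have : φ k ∈ (⊥ : Subgroup PGL(2, F)) := h ⟨k, rfl⟩
  rwa [Subgroup.mem_bot] at this

end

end Pool.Agent.Helper79.KF
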