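import Pool.Agent.Helper79.KF.Padic

/-!
# A matrix with bounded conjugates under a hyperbolic element commutes with it
-/

set_option autoImplicit false

open scoped MatrixGroups

namespace Pool.Agent.Helper79.KF

/-- integral matrices -/
def Int2 (X : Matrix (Fin 2) (Fin 2) ℚ_[7]) : Prop := ∀ i j, ‖X i j‖ ≤ 1

theorem Int2.mul {X Y : Matrix (Fin 2) (Fin 2) ℚ_[7]} (hX : Int2 X) (hY : Int2 Y) :
    Int2 (X * Y) := by
  intro i j
  rw [Matrix.mul_apply, Fin.sum_univ_two]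
  refine (Padic.nonarchimedean _ _).trans (max_le ?_ ?_) <;>
  · rw [norm_mul]
    exact mul_le_one₀ (hX _ _) (norm_nonneg _) (hY _ _)

theorem Int2.inv {X : GL (Fin 2) ℚ_[7]} (hX : Int2 (X : Matrix (Fin 2) (Fin 2) ℚ_[7]))
    (hd : (X : Matrix (Fin 2) (Fin 2) ℚ_[7]).det = 1) :
    Int2 ((X⁻¹ : GL (Fin 2) ℚ_[7]) : Matrix (Fin 2) (Fin 2) ℚ_[7]) := by
  rw [coe_inv_eq hd]
  intro i j
  fin_cases i <;> fin_cases j <;> simp [Matrix.trace_fin_two]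
  · exact hX 1 1
  · exact hX 0 1
  · exact hX 1 0
  · exact hX 0 0

section gen

variable {F : Type*} [Field F]

theorem det_zpow {g : GL (Fin 2) F} (hg : (g : Matrix (Fin 2) (Fin 2) F).det = 1) (j : ℤ) :
    ((g ^ j : GL (Fin 2) F) : Matrix (Fin 2) (Fin 2) F).det = 1 := by
  have h1 : g.det = 1 := by
    apply Units.ext
    simpa using hg
  have h2 : (g ^ j).det = 1 := by rw [map_zpow, h1, one_zpow]
  have h3 := congrArg Units.val h2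
  rw [Matrix.GeneralLinearGroup.val_det_apply] at h3
  exact h3

theorem trace_sq {g : GL (Fin 2) F} (hg : (g : Matrix (Fin 2) (Fin 2) F).det = 1) :
    ((g * g : GL (Fin 2) F) : Matrix (Fin 2) (Fin 2) F).trace =
      (g : Matrix (Fin 2) (Fin 2) F).trace ^ 2 - 2 := by
  rw [Units.val_mul]
  rw [Matrix.det_fin_two] at hg
  simp only [Matrix.trace_fin_two, Matrix.mul_apply, Fin.sum_univ_two]
  linear_combination -2 * hg

theorem commutator_semiconj {g : GL (Fin 2) F} (n : Matrix (Fin 2) (Fin 2) F)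
    (hg : (g : Matrix (Fin 2) (Fin 2) F).det = 1) :
    SemiconjBy ((g : Matrix (Fin 2) (Fin 2) F) * n - n * g) (g : Matrix (Fin 2) (Fin 2) F)
      ((g⁻¹ : GL (Fin 2) F) : Matrix (Fin 2) (Fin 2) F) := by
  have hCH : (g : Matrix (Fin 2) (Fin 2) F) * g =
      (g : Matrix (Fin 2) (Fin 2) F).trace • (g : Matrix (Fin 2) (Fin 2) F) - 1 := by
    have h := coe_inv_eq hg
    have h2 : (g : Matrix (Fin 2) (Fin 2) F) * ((g⁻¹ : GL (Fin 2) F) :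
        Matrix (Fin 2) (Fin 2) F) = 1 := Units.mul_inv g
    rw [h, Matrix.mul_sub, Matrix.mul_smul, Matrix.mul_one] at h2
    rw [← h2]; abel
  rw [SemiconjBy, coe_inv_eq hg]
  have e1 : ((g : Matrix (Fin 2) (Fin 2) F) * n - n * g) * g = g * n * g - n * (g * g) := by
    noncomm_ring
  have e2 : ((g : Matrix (Fin 2) (Fin 2) F).trace • (1 : Matrix (Fin 2) (Fin 2) F) - g) *
      (g * n - n * g) = (g : Matrix (Fin 2) (Fin 2) F).trace • (g * n - n * g) - (g * g) * n +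
        g * n * g := by
    rw [Matrix.sub_mul, Matrix.smul_mul, Matrix.one_mul]; noncomm_ring
  rw [e1, e2, hCH, Matrix.mul_sub, Matrix.sub_mul, Matrix.smul_mul, Matrix.mul_smul, smul_sub,
    Matrix.one_mul, Matrix.mul_one]
  abel

end gen

theorem norm_mul_entry {g X : Matrix (Fin 2) (Fin 2) ℚ_[7]} (hX : Int2 X) {S : ℝ}
    (hS : ∀ i j, ‖g i j‖ ≤ S) (r s : Fin 2) : ‖(g * X - X * g) r s‖ ≤ S := by
  have hS0 : 0 ≤ S := (norm_nonneg _).trans (hS 0 0)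
  have h1 : ∀ i j k l, ‖g i j * X k l‖ ≤ S := by
    intro i j k l
    rw [norm_mul]
    calc ‖g i j‖ * ‖X k l‖ ≤ S * 1 := mul_le_mul (hS _ _) (hX _ _) (norm_nonneg _) hS0
      _ = S := mul_one _
  have h2 : ∀ i j k l, ‖X k l * g i j‖ ≤ S := by
    intro i j k l
    rw [mul_comm]; exact h1 i j k l
  rw [Matrix.sub_apply, Matrix.mul_apply, Matrix.mul_apply, Fin.sum_univ_two, Fin.sum_univ_two,
    sub_eq_add_neg]
  refine (Padic.nonarchimedean _ _).trans (max_le ?_ ?_)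
  · exact (Padic.nonarchimedean _ _).trans (max_le (h1 _ _ _ _) (h1 _ _ _ _))
  · rw [norm_neg]
    exact (Padic.nonarchimedean _ _).trans (max_le (h2 _ _ _ _) (h2 _ _ _ _))

theorem trace_growth {g : GL (Fin 2) ℚ_[7]}
    (hg : (g : Matrix (Fin 2) (Fin 2) ℚ_[7]).det = 1)
    (ht : 1 < ‖(g : Matrix (Fin 2) (Fin 2) ℚ_[7]).trace‖) (i : ℕ) :
    ‖(g : Matrix (Fin 2) (Fin 2) ℚ_[7]).trace‖ ^ (2 ^ i) ≤
      ‖((g ^ ((2 : ℤ) ^ i) : GL (Fin 2) ℚ_[7]) : Matrix (Fin 2) (Fin 2) ℚ_[7]).trace‖ := by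
  induction i with
  | zero => simp
  | succ i ih =>
    have e : g ^ ((2 : ℤ) ^ (i + 1)) = g ^ ((2 : ℤ) ^ i) * g ^ ((2 : ℤ) ^ i) := by
      rw [← zpow_add]; congr 1; ring
    rw [e, trace_sq (det_zpow hg _)]
    set T := ((g ^ ((2 : ℤ) ^ i) : GL (Fin 2) ℚ_[7]) : Matrix (Fin 2) (Fin 2) ℚ_[7]).trace
    have h1 : 1 < ‖T‖ := lt_of_lt_of_le (one_lt_pow₀ ht (by positivity)) ih
    have h2 : ‖(2 : ℚ_[7])‖ ≤ 1 := by
      have := Padic.norm_int_le_one (p := 7) 2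
      simpa using this
    have h3 : ‖T ^ 2‖ ≤ max ‖T ^ 2 - 2‖ ‖(2 : ℚ_[7])‖ := by
      have : T ^ 2 = (T ^ 2 - 2) + 2 := by ring
      calc ‖T ^ 2‖ = ‖(T ^ 2 - 2) + 2‖ := by rw [← this]
        _ ≤ _ := Padic.nonarchimedean _ _
    have h4 : 1 < ‖T ^ 2‖ := by rw [norm_pow]; exact one_lt_pow₀ h1 two_ne_zero
    have h5 : ‖T ^ 2‖ ≤ ‖T ^ 2 - 2‖ := by
      rcases le_max_iff.1 h3 with h | h
      · exact h
      · linarith
    calc ‖(g : Matrix (Fin 2) (Fin 2) ℚ_[7]).trace‖ ^ (2 ^ (i + 1))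
        = (‖(g : Matrix (Fin 2) (Fin 2) ℚ_[7]).trace‖ ^ (2 ^ i)) ^ 2 := by
          rw [← pow_mul]; congr 1
      _ ≤ ‖T‖ ^ 2 := pow_le_pow_left₀ (by positivity) ih 2
      _ = ‖T ^ 2‖ := (norm_pow _ _).symm
      _ ≤ _ := h5

theorem commute_of_bounded {g n : GL (Fin 2) ℚ_[7]}
    (hg : (g : Matrix (Fin 2) (Fin 2) ℚ_[7]).det = 1)
    (ht : 1 < ‖(g : Matrix (Fin 2) (Fin 2) ℚ_[7]).trace‖)
    (hb : ∀ j : ℤ, Int2 ((g ^ j * n * (g ^ j)⁻¹ : GL (Fin 2) ℚ_[7]) :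
      Matrix (Fin 2) (Fin 2) ℚ_[7])) :
    (g : Matrix (Fin 2) (Fin 2) ℚ_[7]) * n = n * g := by
  set m : Matrix (Fin 2) (Fin 2) ℚ_[7] := (g : Matrix (Fin 2) (Fin 2) ℚ_[7]) * n - n * g with hm
  obtain ⟨S, hS⟩ : ∃ S : ℝ, ∀ i j, ‖(g : Matrix (Fin 2) (Fin 2) ℚ_[7]) i j‖ ≤ S := by
    refine ⟨∑ i, ∑ j, ‖(g : Matrix (Fin 2) (Fin 2) ℚ_[7]) i j‖, fun i j => ?_⟩
    calc ‖(g : Matrix (Fin 2) (Fin 2) ℚ_[7]) i j‖
        ≤ ∑ j, ‖(g : Matrix (Fin 2) (Fin 2) ℚ_[7]) i j‖ :=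
          Finset.single_le_sum (f := fun j => ‖(g : Matrix (Fin 2) (Fin 2) ℚ_[7]) i j‖)
            (fun j _ => norm_nonneg _) (Finset.mem_univ j)
      _ ≤ _ := Finset.single_le_sum
            (f := fun i => ∑ j, ‖(g : Matrix (Fin 2) (Fin 2) ℚ_[7]) i j‖)
            (fun i _ => Finset.sum_nonneg fun j _ => norm_nonneg _) (Finset.mem_univ i)
  have hsc := commutator_semiconj (g := g) (n : Matrix (Fin 2) (Fin 2) ℚ_[7]) hg
  rw [← hm] at hsc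
  -- conjugates of `m`
  have c1 : ∀ j : ℤ, ((g ^ j : GL (Fin 2) ℚ_[7]) : Matrix (Fin 2) (Fin 2) ℚ_[7]) * m *
      ((g ^ j)⁻¹ : GL (Fin 2) ℚ_[7]) =
      ((g ^ j * g ^ j : GL (Fin 2) ℚ_[7]) : Matrix (Fin 2) (Fin 2) ℚ_[7]) * m := by
    intro j
    have h := hsc.units_zpow_right (-j)
    rw [SemiconjBy, zpow_neg, inv_zpow, zpow_neg, inv_inv] at h
    rw [Matrix.mul_assoc, h, ← Matrix.mul_assoc, Units.val_mul]
  have c2 : ∀ j : ℤ, ((g ^ j : GL (Fin 2) ℚ_[7]) : Matrix (Fin 2) (Fin 2) ℚ_[7]) * m *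
      ((g ^ j)⁻¹ : GL (Fin 2) ℚ_[7]) =
      g * ((g ^ j * n * (g ^ j)⁻¹ : GL (Fin 2) ℚ_[7]) : Matrix (Fin 2) (Fin 2) ℚ_[7]) -
      ((g ^ j * n * (g ^ j)⁻¹ : GL (Fin 2) ℚ_[7]) : Matrix (Fin 2) (Fin 2) ℚ_[7]) * g := by
    intro j
    have h1 : g ^ j * (g * n) * (g ^ j)⁻¹ = g * (g ^ j * n * (g ^ j)⁻¹) := by
      have : g ^ j * g = g * g ^ j := (Commute.refl g).zpow_left j
      rw [← mul_assoc (g ^ j) g n, this]; group
    have h2 : g ^ j * (n * g) * (g ^ j)⁻¹ = (g ^ j * n * (g ^ j)⁻¹) * g := by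
      have : (g ^ j)⁻¹ * g = g * (g ^ j)⁻¹ := by
        rw [← zpow_neg]; exact (Commute.refl g).zpow_left (-j)
      rw [mul_assoc (g ^ j * n) (g ^ j)⁻¹ g, this]; group
    have h1' := congrArg (fun z : GL (Fin 2) ℚ_[7] => (z : Matrix (Fin 2) (Fin 2) ℚ_[7])) h1
    have h2' := congrArg (fun z : GL (Fin 2) ℚ_[7] => (z : Matrix (Fin 2) (Fin 2) ℚ_[7])) h2
    simp only [Units.val_mul] at h1' h2' ⊢
    rw [hm, Matrix.mul_sub, Matrix.sub_mul, h1', h2']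
  have c3 : ∀ (i : ℕ) (r s : Fin 2),
      ‖(g : Matrix (Fin 2) (Fin 2) ℚ_[7]).trace‖ ^ i * ‖m r s‖ ≤ S := by
    intro i r s
    set j : ℤ := 2 ^ i with hj
    have e1 : ((g ^ (2 * j) : GL (Fin 2) ℚ_[7]) : Matrix (Fin 2) (Fin 2) ℚ_[7]).trace • m =
        ((g ^ j : GL (Fin 2) ℚ_[7]) : Matrix (Fin 2) (Fin 2) ℚ_[7]) * m *
          ((g ^ j)⁻¹ : GL (Fin 2) ℚ_[7]) +
        ((g ^ (-j) : GL (Fin 2) ℚ_[7]) : Matrix (Fin 2) (Fin 2) ℚ_[7]) * m *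
          ((g ^ (-j))⁻¹ : GL (Fin 2) ℚ_[7]) := by
      rw [c1 j, c1 (-j), ← zpow_add, ← zpow_add, ← Matrix.add_mul]
      have h1 : j + j = 2 * j := by ring
      have h2 : -j + -j = -(2 * j) := by ring
      rw [h1, h2, zpow_neg, coe_inv_eq (det_zpow hg (2 * j))]
      rw [show ((g ^ (2 * j) : GL (Fin 2) ℚ_[7]) : Matrix (Fin 2) (Fin 2) ℚ_[7]) +
        (((g ^ (2 * j) : GL (Fin 2) ℚ_[7]) : Matrix (Fin 2) (Fin 2) ℚ_[7]).trace • 1 -
        ((g ^ (2 * j) : GL (Fin 2) ℚ_[7]) : Matrix (Fin 2) (Fin 2) ℚ_[7])) =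
        ((g ^ (2 * j) : GL (Fin 2) ℚ_[7]) : Matrix (Fin 2) (Fin 2) ℚ_[7]).trace • 1 by abel]
      rw [Matrix.smul_mul, Matrix.one_mul]
    have e2 : ‖((g ^ (2 * j) : GL (Fin 2) ℚ_[7]) : Matrix (Fin 2) (Fin 2) ℚ_[7]).trace‖ *
        ‖m r s‖ ≤ S := by
      rw [← norm_mul]
      have h := congrArg (fun X : Matrix (Fin 2) (Fin 2) ℚ_[7] => X r s) e1
      simp only [Matrix.smul_apply, smul_eq_mul, Matrix.add_apply] at h
      rw [h]
      refine (Padic.nonarchimedean _ _).trans (max_le ?_ ?_)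
      · rw [c2]; exact norm_mul_entry (hb _) hS r s
      · rw [c2]; exact norm_mul_entry (hb _) hS r s
    refine le_trans (mul_le_mul_of_nonneg_right ?_ (norm_nonneg _)) e2
    have h3 := trace_growth hg ht (i + 1)
    have h4 : (2 : ℤ) ^ (i + 1) = 2 * j := by rw [hj]; ring
    rw [h4] at h3
    refine le_trans (pow_le_pow_right₀ ht.le ?_) h3
    exact (Nat.lt_two_pow_self (n := i)).le.trans (Nat.pow_le_pow_right (by norm_num) (Nat.le_succ i))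
  have c4 : m = 0 := by
    ext r s
    by_contra hne
    have hpos : 0 < ‖m r s‖ := norm_pos_iff.2 hne
    obtain ⟨i, hi⟩ := pow_unbounded_of_one_lt (S / ‖m r s‖) ht
    have := c3 i r s
    rw [div_lt_iff₀ hpos] at hi
    linarith
  exact sub_eq_zero.1 c4

end Pool.Agent.Helper79.KF
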