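import Pool.Agent.Helper79.KF.Bounded

/-!
# In a finite group `C ∈ ⟨A, B⟩` or `F ∈ ⟨A, B⟩`
-/

set_option autoImplicit false

open scoped MatrixGroups

namespace Pool.Agent.Helper79.KF

open Matrix (ProjGenLinGroup)

theorem Rel.prod {Q M : Type*} [Group Q] [Group M] {a b x : Q} {a' b' x' : M} (h : Rel a b x)
    (h' : Rel a' b' x') : Rel (a, a') (b, b') (x, x') := by
  constructor
  · exact Prod.ext h.a3 h'.a3
  · exact Prod.ext h.b3 h'.b3
  · exact Prod.ext h.x2 h'.x2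
  · exact Prod.ext h.ax h'.ax
  · exact Prod.ext h.bx h'.bx
  · exact Prod.ext h.h1 h'.h1
  · exact Prod.ext h.h2 h'.h2

/-- elements of determinant one with integral entries -/
def intSub : Subgroup (GL (Fin 2) ℚ_[7]) where
  carrier := {g | (g : Matrix (Fin 2) (Fin 2) ℚ_[7]).det = 1 ∧
    Int2 (g : Matrix (Fin 2) (Fin 2) ℚ_[7])}
  one_mem' := by
    refine ⟨by simp, fun i j => ?_⟩
    fin_cases i <;> fin_cases j <;> simp
  mul_mem' := by
    rintro g h ⟨hg, hg'⟩ ⟨hh, hh'⟩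
    exact ⟨by rw [Units.val_mul, Matrix.det_mul, hg, hh, one_mul], by
      rw [Units.val_mul]; exact hg'.mul hh'⟩
  inv_mem' := by
    rintro g ⟨hg, hg'⟩
    refine ⟨?_, hg'.inv hg⟩
    have := det_zpow hg (-1)
    rwa [_root_.zpow_neg_one] at this

theorem int_of_mk {a b m : GL (Fin 2) ℚ_[7]} (ha : a ∈ intSub) (hb : b ∈ intSub)
    (hm : (m : Matrix (Fin 2) (Fin 2) ℚ_[7]).det = 1)
    (h : ProjGenLinGroup.mk m ∈ Subgroup.closure {ProjGenLinGroup.mk a, ProjGenLinGroup.mk b}) :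
    Int2 (m : Matrix (Fin 2) (Fin 2) ℚ_[7]) := by
  have h1 : Subgroup.closure {ProjGenLinGroup.mk a, ProjGenLinGroup.mk b} =
      (Subgroup.closure {a, b}).map ProjGenLinGroup.mk := by
    rw [MonoidHom.map_closure]
    congr 1
    ext y
    simp [Set.image_pair]
  rw [h1] at h
  obtain ⟨w, hw, hwm⟩ := h
  have hw2 : w ∈ intSub := by
    have h2 : Subgroup.closure {a, b} ≤ intSub := by
      rw [Subgroup.closure_le]
      rintro y (rfl | hy)
      · exact ha
      · obtain rfl : y = b := hy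
        exact hb
    exact h2 hw
  rw [ProjGenLinGroup.mk_eq_mk_iff] at hwm
  obtain ⟨u, rfl⟩ := hwm
  have e : ((w * .scalar (Fin 2) u : GL (Fin 2) ℚ_[7]) : Matrix (Fin 2) (Fin 2) ℚ_[7]) =
      (u : ℚ_[7]) • (w : Matrix (Fin 2) (Fin 2) ℚ_[7]) := by
    rw [Units.val_mul]
    ext i j
    fin_cases i <;> fin_cases j <;>
      simp [Matrix.mul_apply, Fin.sum_univ_two, Matrix.scalar, mul_comm]
  rw [e] at hm ⊢
  rw [Matrix.det_smul, hw2.1, mul_one, Fintype.card_fin] at hm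
  have hu : ‖(u : ℚ_[7])‖ = 1 := by
    have h3 : ‖(u : ℚ_[7])‖ ^ 2 = 1 := by rw [← norm_pow, hm, norm_one]
    exact (pow_eq_one_iff_of_nonneg (norm_nonneg _) two_ne_zero).1 h3
  intro i j
  rw [Matrix.smul_apply, smul_eq_mul, norm_mul, hu, one_mul]
  exact hw2.2 i j

theorem not_root_of_unity {q : ℚ_[7]} (hP : Quart q) (hq : q ≠ 0) {k : ℕ} (hk : 0 < k)
    (h : q ^ k = 1) : False := by
  have h1 : IsIntegral ℤ q := IsIntegral.of_pow hk (by rw [h]; exact isIntegral_one)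
  have h2 : IsIntegral ℤ q⁻¹ := IsIntegral.of_pow hk (by rw [inv_pow, h, inv_one]; exact isIntegral_one)
  have h3 : IsIntegral ℤ ((q + q⁻¹ - 1) ^ 2) := ((h1.add h2).sub isIntegral_one).pow 2
  have h4 : (q + q⁻¹ - 1) ^ 2 = 1 / 2 := by
    unfold Quart at hP
    field_simp
    linear_combination hP
  rw [h4] at h3
  have h5 : (1 / 2 : ℚ_[7]) = algebraMap ℚ ℚ_[7] (1 / 2) := by
    simp
  rw [h5, isIntegral_algebraMap_iff (algebraMap ℚ ℚ_[7]).injective] at h3
  rw [IsIntegrallyClosed.isIntegral_iff] at h3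
  obtain ⟨y, hy⟩ := h3
  have h6 : (y : ℚ) * 2 = 1 := by
    have : ((y : ℤ) : ℚ) = 1 / 2 := by simpa using hy
    rw [this]; norm_num
  have h7 : y * 2 = 1 := by exact_mod_cast h6
  omega

theorem c_or_f {Q : Type*} [Group Q] [Finite Q] {a b c f : Q} (hc : Rel a b c)
    (hf : Rel a⁻¹ b⁻¹ f) : c ∈ Subgroup.closure {a, b} ∨ f ∈ Subgroup.closure {a, b} := by
  by_contra hcon
  push Not at hcon
  obtain ⟨hc', hf'⟩ := hcon
  obtain ⟨q, hP, hq1, hq2⟩ := exists_q
  have hq : q ≠ 0 := norm_pos_iff.1 (by rw [hq1]; norm_num)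
  have h2 : q ^ 2 + q + 1 ≠ 0 := by
    intro h0
    have h3 : q ^ 3 = 1 := by linear_combination (q - 1) * h0
    exact not_root_of_unity hP hq (by norm_num) h3
  have h3 : 1 - q ^ 3 ≠ 0 := by
    intro h0
    exact not_root_of_unity hP hq (k := 3) (by norm_num) (sub_eq_zero.1 h0).symm
  set gA : GL (Fin 2) ℚ_[7] := Matrix.GeneralLinearGroup.mkOfDetNeZero mA
    (by rw [detA]; exact one_ne_zero) with hgA
  set gB : GL (Fin 2) ℚ_[7] := Matrix.GeneralLinearGroup.mkOfDetNeZero (mB q)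
    (by rw [detB hq]; exact one_ne_zero) with hgB
  set gC : GL (Fin 2) ℚ_[7] := Matrix.GeneralLinearGroup.mkOfDetNeZero (mC q)
    (by rw [detC hP h3]; exact one_ne_zero) with hgC
  set gF : GL (Fin 2) ℚ_[7] := Matrix.GeneralLinearGroup.mkOfDetNeZero (mF q)
    (by rw [detF hP h3]; exact one_ne_zero) with hgF
  have vA : (gA : Matrix (Fin 2) (Fin 2) ℚ_[7]) = mA := rfl
  have vB : (gB : Matrix (Fin 2) (Fin 2) ℚ_[7]) = mB q := rfl
  have vC : (gC : Matrix (Fin 2) (Fin 2) ℚ_[7]) = mC q := rfl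
  have vF : (gF : Matrix (Fin 2) (Fin 2) ℚ_[7]) = mF q := rfl
  have dA : (gA : Matrix (Fin 2) (Fin 2) ℚ_[7]).det = 1 := detA
  have dB : (gB : Matrix (Fin 2) (Fin 2) ℚ_[7]).det = 1 := detB hq
  have dC : (gC : Matrix (Fin 2) (Fin 2) ℚ_[7]).det = 1 := detC hP h3
  have dF : (gF : Matrix (Fin 2) (Fin 2) ℚ_[7]).det = 1 := detF hP h3
  have dA' : ((gA⁻¹ : GL (Fin 2) ℚ_[7]) : Matrix (Fin 2) (Fin 2) ℚ_[7]).det = 1 := by
    have := det_zpow dA (-1)
    rwa [_root_.zpow_neg_one] at this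
  have dB' : ((gB⁻¹ : GL (Fin 2) ℚ_[7]) : Matrix (Fin 2) (Fin 2) ℚ_[7]).det = 1 := by
    have := det_zpow dB (-1)
    rwa [_root_.zpow_neg_one] at this
  have r1 : Rel (ProjGenLinGroup.mk gA) (ProjGenLinGroup.mk gB) (ProjGenLinGroup.mk gC) := by
    refine rel_of_traces (u := 1) ?_ ?_ dA dB dC ?_ (by norm_num) ?_ ?_ ?_
    · rw [vA]; exact trA
    · rw [vB]; exact trB
    · rw [vC]; exact trC
    · rw [vA, vC]; exact trAC h3
    · rw [vB, vC]; exact trBC hq h3
    · rw [vA, vB, vC, trABC hq h3, trAB]; ring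
  have r2 : Rel (ProjGenLinGroup.mk gA⁻¹) (ProjGenLinGroup.mk gB⁻¹) (ProjGenLinGroup.mk gF) := by
    have tA : (mA : Matrix (Fin 2) (Fin 2) ℚ_[7]).trace = -1 := trA
    have t1 : ((1 : Matrix (Fin 2) (Fin 2) ℚ_[7])).trace = 2 := by
      rw [Matrix.trace_one]; simp
    refine rel_of_traces (u := -1) ?_ ?_ dA' dB' dF ?_ (by norm_num) ?_ ?_ ?_
    · rw [coe_inv_eq dA, vA, Matrix.trace_sub, Matrix.trace_smul, tA, t1]; norm_num
    · rw [coe_inv_eq dB, vB, Matrix.trace_sub, Matrix.trace_smul, trB, t1]; norm_num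
    · rw [vF]; exact trF
    · rw [coe_inv_eq dA, vA, vF, Matrix.sub_mul, Matrix.trace_sub, Matrix.smul_mul,
        Matrix.one_mul, Matrix.trace_smul, trF, trAF h3]; simp
    · rw [coe_inv_eq dB, vB, vF, Matrix.sub_mul, Matrix.trace_sub, Matrix.smul_mul,
        Matrix.one_mul, Matrix.trace_smul, trF, trBF hq h3]; simp
    · have e1 : ((mA : Matrix (Fin 2) (Fin 2) ℚ_[7]).trace • 1 - mA) *
          ((mB q).trace • 1 - mB q) = 1 + mA + mB q + mA * mB q := by
        rw [tA, trB]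
        simp only [neg_smul, one_smul]
        noncomm_ring
      rw [coe_inv_eq dA, coe_inv_eq dB, vA, vB, vF, e1]
      simp only [Matrix.add_mul, Matrix.trace_add, Matrix.one_mul]
      rw [trF, trAF h3, trBF hq h3, trABF hq h3, t1, tA, trB, trAB]
      ring
  -- the pairs
  set A : Q × PGL(2, ℚ_[7]) := (a, ProjGenLinGroup.mk gA) with hA
  set B : Q × PGL(2, ℚ_[7]) := (b, ProjGenLinGroup.mk gB) with hB
  set C : Q × PGL(2, ℚ_[7]) := (c, ProjGenLinGroup.mk gC) with hC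
  set F : Q × PGL(2, ℚ_[7]) := (f, ProjGenLinGroup.mk gF) with hF
  have R1 : Rel A B C := hc.prod r1
  have R2 : Rel A⁻¹ B⁻¹ F := by
    have := hf.prod r2
    rw [map_inv, map_inv] at this
    exact this
  have hk : 0 < orderOf (a * b) := orderOf_pos _
  set k := orderOf (a * b) with hkd
  have hn : ProjGenLinGroup.mk ((gA * gB) ^ k) ∈ kerL A B := by
    rw [mem_kerL]
    have e : ((1 : Q), ProjGenLinGroup.mk ((gA * gB) ^ k)) = (A * B) ^ k := by
      apply Prod.ext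
      · show (1 : Q) = (a * b) ^ k
        rw [hkd, pow_orderOf_eq_one]
      · show ProjGenLinGroup.mk ((gA * gB) ^ k) = _
        rw [map_pow, map_mul]; rfl
    rw [e]
    exact pow_mem (mul_mem (Subgroup.subset_closure (by simp)) (Subgroup.subset_closure (by simp))) k
  have dAB : ((gA * gB : GL (Fin 2) ℚ_[7]) : Matrix (Fin 2) (Fin 2) ℚ_[7]).det = 1 := by
    rw [Units.val_mul, Matrix.det_mul, dA, dB, one_mul]
  have dn : (((gA * gB) ^ k : GL (Fin 2) ℚ_[7]) : Matrix (Fin 2) (Fin 2) ℚ_[7]).det = 1 := by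
    have := det_zpow dAB k
    rwa [zpow_natCast] at this
  have dg : ((gC * gF : GL (Fin 2) ℚ_[7]) : Matrix (Fin 2) (Fin 2) ℚ_[7]).det = 1 := by
    rw [Units.val_mul, Matrix.det_mul, dC, dF, one_mul]
  have iA : gA ∈ intSub := by
    refine ⟨dA, ?_⟩
    rw [vA]
    intro i j
    fin_cases i <;> fin_cases j <;> simp [mA]
  have iB : gB ∈ intSub := by
    refine ⟨dB, ?_⟩
    rw [vB]
    intro i j
    fin_cases i <;> fin_cases j <;> simp [mB, hq1]
  have hb : ∀ j : ℤ, Int2 (((gC * gF) ^ j * (gA * gB) ^ k * ((gC * gF) ^ j)⁻¹ :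
      GL (Fin 2) ℚ_[7]) : Matrix (Fin 2) (Fin 2) ℚ_[7]) := by
    intro j
    apply int_of_mk iA iB
    · rw [Units.val_mul, Units.val_mul, Matrix.det_mul, Matrix.det_mul, det_zpow dg, dn]
      have := det_zpow dg (-j)
      rw [_root_.zpow_neg] at this
      rw [this]; ring
    · have hw : ProjGenLinGroup.mk ((gC * gF) ^ j) ∈ Subgroup.closure {A.2, B.2, C.2, F.2} := by
        rw [map_zpow, map_mul]
        exact zpow_mem (mul_mem (Subgroup.subset_closure (by simp [hC]))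
          (Subgroup.subset_closure (by simp [hF]))) j
      have h5 := kernel_normal R1 R2 hc' hf' hw
      rw [Subgroup.mem_normalizer_iff] at h5
      have h6 := (h5 _).1 hn
      rw [mem_kerL] at h6
      have h7 := snd_mem h6
      rw [map_mul, map_mul, map_inv]
      exact h7
  have ht : 1 < ‖((gC * gF : GL (Fin 2) ℚ_[7]) : Matrix (Fin 2) (Fin 2) ℚ_[7]).trace‖ := by
    rw [Units.val_mul, vC, vF, trCF hP h3 h2, norm_div]
    have n2 : ‖(2 : ℚ_[7])‖ = 1 := by
      have : ((2 : ℤ) : ℚ_[7]) = 2 := by norm_num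
      rw [← this]
      refine le_antisymm (Padic.norm_int_le_one 2) (not_lt.1 ?_)
      rw [Padic.norm_intCast_lt_one_iff]; norm_num
    have n3 : ‖q ^ 2 - q + 1‖ = 1 := by
      have e : q ^ 2 - q + 1 = (q ^ 2 + q + 1) + (-(2 * q)) := by ring
      have n4 : ‖-(2 * q)‖ = 1 := by rw [norm_neg, norm_mul, n2, hq1, one_mul]
      rw [e, Padic.add_eq_max_of_ne (by rw [n4]; exact hq2.ne), n4, max_eq_right hq2.le]
    rw [norm_mul, n2, n3, one_mul]
    exact (one_lt_div (norm_pos_iff.2 h2)).2 hq2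
  have hcomm := commute_of_bounded dg ht hb
  -- the matrix `(ab)^k`
  have hlow : ∀ k : ℕ, (((gA * gB) ^ k : GL (Fin 2) ℚ_[7]) : Matrix (Fin 2) (Fin 2) ℚ_[7]) 0 1 = 0 ∧
      (((gA * gB) ^ k : GL (Fin 2) ℚ_[7]) : Matrix (Fin 2) (Fin 2) ℚ_[7]) 0 0 = (q⁻¹) ^ k ∧
      (((gA * gB) ^ k : GL (Fin 2) ℚ_[7]) : Matrix (Fin 2) (Fin 2) ℚ_[7]) 1 1 = q ^ k := by
    intro k
    induction k with
    | zero => simp
    | succ k ih =>
      obtain ⟨h01, h00, h11⟩ := ih
      rw [pow_succ, Units.val_mul, Units.val_mul, vA, vB]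
      simp only [Matrix.mul_apply, Fin.sum_univ_two, h01, h00, h11]
      refine ⟨?_, ?_, ?_⟩
      · simp [mA, mB]
      · simp [mA, mB, pow_succ]
      · simp [mA, mB, pow_succ]
  obtain ⟨h01, h00, h11⟩ := hlow k
  have e := congrFun (congrFun hcomm 0) 1
  rw [Matrix.mul_apply, Matrix.mul_apply, Fin.sum_univ_two, Fin.sum_univ_two, h01, h00, h11] at e
  have e2 : ((gC * gF : GL (Fin 2) ℚ_[7]) : Matrix (Fin 2) (Fin 2) ℚ_[7]) 0 1 =
      -2 * q * (1 - q + q ^ 2) / (1 - q ^ 3) := by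
    rw [Units.val_mul, vC, vF]; exact CF01 h3
  have e3 : ((gC * gF : GL (Fin 2) ℚ_[7]) : Matrix (Fin 2) (Fin 2) ℚ_[7]) 0 1 ≠ 0 := by
    rw [e2]
    refine div_ne_zero (mul_ne_zero (mul_ne_zero (by norm_num) hq) ?_) h3
    intro h0
    have h6 : q ^ 6 = 1 := by
      have : q ^ 3 = -1 := by linear_combination (q + 1) * h0
      calc q ^ 6 = (q ^ 3) ^ 2 := by ring
        _ = 1 := by rw [this]; norm_num
    exact not_root_of_unity hP hq (by norm_num) h6
  have e4 : q ^ k = (q⁻¹) ^ k := by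
    have h8 : ((gC * gF : GL (Fin 2) ℚ_[7]) : Matrix (Fin 2) (Fin 2) ℚ_[7]) 0 1 *
        (q ^ k - (q⁻¹) ^ k) = 0 := by linear_combination e
    exact sub_eq_zero.1 ((mul_eq_zero.1 h8).resolve_left e3)
  have e5 : q ^ (k + k) = 1 := by
    rw [pow_add]
    nth_rewrite 1 [e4]
    rw [← mul_pow, inv_mul_cancel₀ hq, one_pow]
  exact not_root_of_unity hP hq (by omega) e5

/-- **Generation.** In a finite group with the relations of `⟨A, B, C, F⟩`, the elements `C` and
`F` lie in the subgroup generated by `A` and `B`. -/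
theorem c_and_f {Q : Type*} [Group Q] [Finite Q] {a b c f : Q} (hc : Rel a b c)
    (hf : Rel a⁻¹ b⁻¹ f) : c ∈ Subgroup.closure {a, b} ∧ f ∈ Subgroup.closure {a, b} := by
  have h1 : Rel ((a, a⁻¹) : Q × Q) (b, b⁻¹) (c, f) := hc.prod hf
  have h2 : Rel ((a, a⁻¹) : Q × Q)⁻¹ (b, b⁻¹)⁻¹ (f, c) := by
    have := hf.prod hc
    rw [Prod.inv_mk, Prod.inv_mk, inv_inv, inv_inv]
    exact this
  have key : ∀ g : Q × Q, g ∈ Subgroup.closure {((a, a⁻¹) : Q × Q), (b, b⁻¹)} →
      g.1 ∈ Subgroup.closure {a, b} ∧ g.2 ∈ Subgroup.closure {a, b} := by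
    intro g hg
    have k1 := fst_mem hg
    have k2 := snd_mem hg
    rw [closure_inv_pair] at k2
    exact ⟨k1, k2⟩
  rcases c_or_f h1 h2 with h | h
  · have := key _ h
    exact this
  · have := key _ h
    exact ⟨this.2, this.1⟩

theorem closure_inv_right {G : Type*} [Group G] (a b : G) :
    Subgroup.closure ({a, b⁻¹} : Set G) = Subgroup.closure {a, b} := by
  apply le_antisymm
  · rw [Subgroup.closure_le]
    rintro y (rfl | hy)
    · exact Subgroup.subset_closure (by simp)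
    · obtain rfl : y = b⁻¹ := hy
      exact inv_mem (Subgroup.subset_closure (by simp))
  · rw [Subgroup.closure_le]
    rintro y (rfl | hy)
    · exact Subgroup.subset_closure (by simp)
    · obtain rfl : y = b := hy
      have : y⁻¹ ∈ Subgroup.closure ({a, y⁻¹} : Set G) := Subgroup.subset_closure (by simp)
      simpa using inv_mem this

end Pool.Agent.Helper79.KF
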