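import Pool.Agent.Helper79.KF.Fact

/-!
# Normality of the kernel on `L`

`Q` is a quotient and `M` a second group (later `PGL₂(ℚ₇)`); the pairs `(a, b, x)` live in `Q × M`.
-/

set_option autoImplicit false

namespace Pool.Agent.Helper79.KF

variable {Q M : Type*} [Group Q] [Group M]

theorem closure_inv_pair {G : Type*} [Group G] (a b : G) :
    Subgroup.closure ({a⁻¹, b⁻¹} : Set G) = Subgroup.closure {a, b} := by
  apply le_antisymm
  · rw [Subgroup.closure_le]
    intro y hy
    rcases hy with rfl | hy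
    · exact inv_mem (Subgroup.subset_closure (by simp))
    · obtain rfl : y = b⁻¹ := hy
      exact inv_mem (Subgroup.subset_closure (by simp))
  · rw [Subgroup.closure_le]
    intro y hy
    rcases hy with rfl | hy
    · have : y⁻¹ ∈ Subgroup.closure ({y⁻¹, b⁻¹} : Set G) := Subgroup.subset_closure (by simp)
      simpa using inv_mem this
    · obtain rfl : y = b := hy
      have : y⁻¹ ∈ Subgroup.closure ({a⁻¹, y⁻¹} : Set G) := Subgroup.subset_closure (by simp)
      simpa using inv_mem this

theorem fst_mem {a b g : Q × M} (hg : g ∈ Subgroup.closure {a, b}) :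
    g.1 ∈ Subgroup.closure {a.1, b.1} := by
  have h : (Subgroup.closure {a, b}).map (MonoidHom.fst Q M) = Subgroup.closure {a.1, b.1} := by
    rw [MonoidHom.map_closure]
    congr 1
    ext y
    simp [Set.image_pair]
  rw [← h]
  exact ⟨g, hg, rfl⟩

theorem snd_mem {a b g : Q × M} (hg : g ∈ Subgroup.closure {a, b}) :
    g.2 ∈ Subgroup.closure {a.2, b.2} := by
  have h : (Subgroup.closure {a, b}).map (MonoidHom.snd Q M) = Subgroup.closure {a.2, b.2} := by
    rw [MonoidHom.map_closure]
    congr 1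
    ext y
    simp [Set.image_pair]
  rw [← h]
  exact ⟨g, hg, rfl⟩

/-- `x` normalises the kernel on `L` -/
theorem conj_mem {a b x : Q × M} (h : Rel a b x) (hx : x.1 ∉ Subgroup.closure {a.1, b.1}) {m : M}
    (hm : ((1 : Q), m) ∈ Subgroup.closure {a, b}) :
    ((1 : Q), x.2 * m * x.2⁻¹) ∈ Subgroup.closure {a, b} := by
  have h1 : x * ((1 : Q), m) * x⁻¹ ∈ Subgroup.closure {a, b, x} := by
    have hxm : x ∈ Subgroup.closure ({a, b, x} : Set (Q × M)) := Subgroup.subset_closure (by simp)
    refine mul_mem (mul_mem hxm ?_) (inv_mem hxm)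
    exact Subgroup.closure_mono (by intro y hy; rcases hy with rfl | rfl <;> simp) hm
  obtain ⟨l, hl, i, hi⟩ := h.factor h1
  have e : x * ((1 : Q), m) * x⁻¹ = ((1 : Q), x.2 * m * x.2⁻¹) := by
    apply Prod.ext
    · simp
    · rfl
  rw [e] at hi
  have h0 : Rel a.1 b.1 x.1 := by
    constructor
    · exact congrArg Prod.fst h.a3
    · exact congrArg Prod.fst h.b3
    · exact congrArg Prod.fst h.x2
    · exact congrArg Prod.fst h.ax
    · exact congrArg Prod.fst h.bx
    · exact congrArg Prod.fst h.h1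
    · exact congrArg Prod.fst h.h2
  have h2 : dw a.1 b.1 x.1 i ∈ Subgroup.closure ({a.1, b.1} : Set Q) := by
    have h3 : (dw a b x i).1 = dw a.1 b.1 x.1 i := map_dw (MonoidHom.fst Q M) a b x i
    have h4 : (1 : Q) = l.1 * (dw a b x i).1 := congrArg Prod.fst hi
    have h5 : (dw a b x i).1 = l.1⁻¹ := (inv_eq_of_mul_eq_one_right h4.symm).symm
    rw [← h3, h5]
    exact inv_mem (fst_mem hl)
  rcases h0.mem_of_dw (Subgroup.subset_closure (by simp)) (Subgroup.subset_closure (by simp)) h2
    with h3 | h3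
  · rw [hi, h3]
    have : dw a b x 0 = 1 := rfl
    rw [this, mul_one]
    exact hl
  · exact absurd h3 hx

/-- the kernel on `L` -/
def kerL (a b : Q × M) : Subgroup M := (Subgroup.closure {a, b}).comap (MonoidHom.inr Q M)

theorem mem_kerL {a b : Q × M} {m : M} :
    m ∈ kerL a b ↔ ((1 : Q), m) ∈ Subgroup.closure {a, b} := Iff.rfl

theorem invol_mem_normalizer {N : Subgroup M} {x : M} (hx : x ^ 2 = 1)
    (h : ∀ m ∈ N, x * m * x⁻¹ ∈ N) : x ∈ Subgroup.normalizer (N : Set M) := by
  rw [Subgroup.mem_normalizer_iff]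
  intro m
  refine ⟨h m, fun hm => ?_⟩
  have h2 := h _ hm
  have ix : x⁻¹ = x := inv_of_sq hx
  have e : x * (x * m * x⁻¹) * x⁻¹ = m := by
    have : x * (x * m * x⁻¹) * x⁻¹ = (x * x) * m * (x⁻¹ * x⁻¹) := by group
    rw [this, ix, ← pow_two, hx]; group
  rwa [e] at h2

theorem kernel_normal {a b c f : Q × M} (hc : Rel a b c) (hf : Rel a⁻¹ b⁻¹ f)
    (hc' : c.1 ∉ Subgroup.closure {a.1, b.1}) (hf' : f.1 ∉ Subgroup.closure {a.1, b.1})
    {w : M} (hw : w ∈ Subgroup.closure {a.2, b.2, c.2, f.2}) :
    w ∈ Subgroup.normalizer (kerL a b : Set M) := by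
  have h : Subgroup.closure {a.2, b.2, c.2, f.2} ≤ Subgroup.normalizer (kerL a b : Set M) := by
    rw [Subgroup.closure_le]
    have hL : ∀ l : Q × M, l ∈ Subgroup.closure {a, b} →
        l.2 ∈ Subgroup.normalizer (kerL a b : Set M) := by
      intro l hl
      rw [Subgroup.mem_normalizer_iff]
      intro m
      rw [mem_kerL, mem_kerL]
      have e : ((1 : Q), l.2 * m * l.2⁻¹) = l * (1, m) * l⁻¹ := by
        apply Prod.ext
        · simp
        · rfl
      rw [e]
      constructor
      · intro hm; exact mul_mem (mul_mem hl hm) (inv_mem hl)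
      · intro hm
        have := mul_mem (mul_mem (inv_mem hl) hm) hl
        have e2 : l⁻¹ * (l * ((1 : Q), m) * l⁻¹) * l = (1, m) := by group
        rwa [e2] at this
    rintro y (rfl | rfl | rfl | hy)
    · exact hL a (Subgroup.subset_closure (by simp))
    · exact hL b (Subgroup.subset_closure (by simp))
    · refine invol_mem_normalizer (congrArg Prod.snd hc.x2) fun m hm => ?_
      exact conj_mem hc hc' hm
    · obtain rfl : y = f.2 := hy
      refine invol_mem_normalizer (congrArg Prod.snd hf.x2) fun m hm => ?_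
      rw [mem_kerL] at hm ⊢
      rw [← closure_inv_pair] at hm ⊢
      refine conj_mem hf ?_ hm
      rw [Prod.fst_inv, Prod.fst_inv, closure_inv_pair]
      exact hf'
  exact h hw

end Pool.Agent.Helper79.KF
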