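import Pool.Agent.Helper79.KF.Seven

/-!
# The number `q ∈ ℚ₇`
-/

set_option autoImplicit false

open Matrix Polynomial
open scoped MatrixGroups

namespace Pool.Agent.Helper79.KF

instance fact7 : Fact (Nat.Prime 7) := ⟨by norm_num⟩

/-- the quartic -/
noncomputable def qpoly : Polynomial ℤ_[7] := C 2 * X ^ 4 - C 4 * X ^ 3 + C 5 * X ^ 2 - C 4 * X + C 2

theorem exists_q : ∃ q : ℚ_[7], Quart q ∧ ‖q‖ = 1 ∧ ‖q ^ 2 + q + 1‖ < 1 := by
  have e1 : qpoly.aeval (2 : ℤ_[7]) = 14 := by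
    simp [qpoly]; norm_num
  have e2 : qpoly.derivative.aeval (2 : ℤ_[7]) = 32 := by
    simp [qpoly]; norm_num
  have n1 : ‖(14 : ℤ_[7])‖ < 1 := by
    have : ((14 : ℤ) : ℤ_[7]) = 14 := by norm_num
    rw [← this, PadicInt.norm_int_lt_one_iff_dvd]; norm_num
  have n2 : ‖(32 : ℤ_[7])‖ = 1 := by
    have : ((32 : ℤ) : ℤ_[7]) = 32 := by norm_num
    rw [← this]
    have h := PadicInt.norm_le_one ((32 : ℤ) : ℤ_[7])
    refine le_antisymm h (not_lt.1 ?_)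
    rw [PadicInt.norm_int_lt_one_iff_dvd]; norm_num
  obtain ⟨z, hz, hz2, -⟩ := hensels_lemma (F := qpoly) (a := (2 : ℤ_[7]))
    (by rw [e1, e2, n2]; simpa using n1)
  rw [e2, n2] at hz2
  have hq : 2 * z ^ 4 - 4 * z ^ 3 + 5 * z ^ 2 - 4 * z + 2 = 0 := by
    simpa [qpoly] using hz
  have n3 : ‖(2 : ℤ_[7])‖ = 1 := by
    have : ((2 : ℤ) : ℤ_[7]) = 2 := by norm_num
    rw [← this]
    have h := PadicInt.norm_le_one ((2 : ℤ) : ℤ_[7])
    refine le_antisymm h (not_lt.1 ?_)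
    rw [PadicInt.norm_int_lt_one_iff_dvd]; norm_num
  have n4 : ‖z‖ = 1 := by
    have h : z = (z - 2) + 2 := by ring
    rw [h, PadicInt.norm_add_eq_max_of_ne (by rw [n3]; exact hz2.ne), n3, max_eq_right hz2.le]
  have n5 : ‖z ^ 2 + z + 1‖ < 1 := by
    have h : z ^ 2 + z + 1 = (z - 2) * (z + 3) + 7 := by ring
    rw [h]
    refine lt_of_le_of_lt (PadicInt.nonarchimedean _ _) (max_lt ?_ ?_)
    · rw [norm_mul]
      have := PadicInt.norm_le_one (z + 3)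
      nlinarith [norm_nonneg (z - 2), norm_nonneg (z + 3)]
    · have : ((7 : ℤ) : ℤ_[7]) = 7 := by norm_num
      rw [← this, PadicInt.norm_int_lt_one_iff_dvd]; norm_num
  refine ⟨(z : ℚ_[7]), ?_, ?_, ?_⟩
  · have := congrArg (fun w : ℤ_[7] => (w : ℚ_[7])) hq
    unfold Quart
    push_cast at this
    exact this
  · exact n4
  · have h : ((z ^ 2 + z + 1 : ℤ_[7]) : ℚ_[7]) = (z : ℚ_[7]) ^ 2 + z + 1 := by push_cast; ring
    rw [← h]
    exact n5

end Pool.Agent.Helper79.KF
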