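import Mathlib

/-!
# Elements of order two and three in `PGL₂(F)`
-/

set_option autoImplicit false

open Matrix
open scoped MatrixGroups

namespace Pool.Agent.Helper79.KF

variable {F : Type*} [Field F]

/-- scalar matrices -/
def Sc (X : Matrix (Fin 2) (Fin 2) F) : Prop := X 0 1 = 0 ∧ X 1 0 = 0 ∧ X 0 0 = X 1 1

theorem mk_eq_one_iff (G : GL (Fin 2) F) :
    ProjGenLinGroup.mk G = 1 ↔ Sc (G : Matrix (Fin 2) (Fin 2) F) := by
  rw [← ProjGenLinGroup.mk_one, eq_comm, ProjGenLinGroup.mk_eq_mk_iff]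
  constructor
  · rintro ⟨u, hu⟩
    rw [one_mul] at hu
    rw [← hu]
    refine ⟨?_, ?_, ?_⟩ <;> simp [Matrix.scalar]
  · rintro ⟨h1, h2, h3⟩
    have hdet : (G : Matrix (Fin 2) (Fin 2) F).det ≠ 0 := by
      have := G.det.ne_zero
      simpa using this
    have h0 : (G : Matrix (Fin 2) (Fin 2) F) 0 0 ≠ 0 := by
      intro h
      apply hdet
      rw [Matrix.det_fin_two, h, h1]; ring
    refine ⟨Units.mk0 _ h0, ?_⟩
    apply Units.ext
    ext i j
    fin_cases i <;> fin_cases j <;> simp [Matrix.scalar, h1, h2, h3]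

theorem sq_apply (X : Matrix (Fin 2) (Fin 2) F) :
    (X * X) 0 1 = X 0 1 * X.trace ∧ (X * X) 1 0 = X 1 0 * X.trace ∧
      (X * X) 0 0 - (X * X) 1 1 = (X 0 0 - X 1 1) * X.trace := by
  simp only [Matrix.mul_apply, Fin.sum_univ_two, Matrix.trace_fin_two]
  refine ⟨by ring, by ring, by ring⟩

theorem cube_apply (X : Matrix (Fin 2) (Fin 2) F) :
    (X * X * X) 0 1 = X 0 1 * (X.trace ^ 2 - X.det) ∧
      (X * X * X) 1 0 = X 1 0 * (X.trace ^ 2 - X.det) ∧
      (X * X * X) 0 0 - (X * X * X) 1 1 = (X 0 0 - X 1 1) * (X.trace ^ 2 - X.det) := by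
  simp only [Matrix.mul_apply, Fin.sum_univ_two, Matrix.trace_fin_two, Matrix.det_fin_two]
  refine ⟨by ring, by ring, by ring⟩

theorem mk_sq_of_trace {G : GL (Fin 2) F} (h : (G : Matrix (Fin 2) (Fin 2) F).trace = 0) :
    ProjGenLinGroup.mk G ^ 2 = 1 := by
  rw [← map_pow, mk_eq_one_iff, pow_two]
  obtain ⟨h1, h2, h3⟩ := sq_apply (G : Matrix (Fin 2) (Fin 2) F)
  rw [h, mul_zero] at h1 h2 h3
  exact ⟨h1, h2, sub_eq_zero.1 h3⟩

theorem mk_cube_of_trace {G : GL (Fin 2) F}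
    (h : (G : Matrix (Fin 2) (Fin 2) F).trace ^ 2 = (G : Matrix (Fin 2) (Fin 2) F).det) :
    ProjGenLinGroup.mk G ^ 3 = 1 := by
  rw [← map_pow, mk_eq_one_iff, pow_three, ← mul_assoc]
  obtain ⟨h1, h2, h3⟩ := cube_apply (G : Matrix (Fin 2) (Fin 2) F)
  rw [h, sub_self, mul_zero] at h1 h2 h3
  exact ⟨h1, h2, sub_eq_zero.1 h3⟩

theorem trace_of_mk_sq {G : GL (Fin 2) F} (h : ProjGenLinGroup.mk G ^ 2 = 1)
    (hne : ProjGenLinGroup.mk G ≠ 1) : (G : Matrix (Fin 2) (Fin 2) F).trace = 0 := by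
  rw [← map_pow, mk_eq_one_iff, pow_two] at h
  obtain ⟨h1, h2, h3⟩ := sq_apply (G : Matrix (Fin 2) (Fin 2) F)
  by_contra ht
  apply hne
  rw [mk_eq_one_iff]
  obtain ⟨k1, k2, k3⟩ := h
  have e1 := h1.symm.trans k1
  have e2 := h2.symm.trans k2
  have e3 := h3.symm.trans (sub_eq_zero.2 k3)
  exact ⟨(mul_eq_zero.1 e1).resolve_right ht, (mul_eq_zero.1 e2).resolve_right ht,
    sub_eq_zero.1 ((mul_eq_zero.1 e3).resolve_right ht)⟩

theorem trace_of_mk_cube {G : GL (Fin 2) F} (h : ProjGenLinGroup.mk G ^ 3 = 1)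
    (hne : ProjGenLinGroup.mk G ≠ 1) :
    (G : Matrix (Fin 2) (Fin 2) F).trace ^ 2 = (G : Matrix (Fin 2) (Fin 2) F).det := by
  rw [← map_pow, mk_eq_one_iff, pow_three, ← mul_assoc] at h
  obtain ⟨h1, h2, h3⟩ := cube_apply (G : Matrix (Fin 2) (Fin 2) F)
  by_contra ht
  have ht' := sub_ne_zero.2 ht
  apply hne
  rw [mk_eq_one_iff]
  obtain ⟨k1, k2, k3⟩ := h
  have e1 := h1.symm.trans k1
  have e2 := h2.symm.trans k2
  have e3 := h3.symm.trans (sub_eq_zero.2 k3)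
  exact ⟨(mul_eq_zero.1 e1).resolve_right ht', (mul_eq_zero.1 e2).resolve_right ht',
    sub_eq_zero.1 ((mul_eq_zero.1 e3).resolve_right ht')⟩

/-- The Fricke relation for three matrices. -/
theorem fricke (a b x : Matrix (Fin 2) (Fin 2) F) (hx : x.trace = 0) :
    (a * b * x).trace ^ 2 - (a.trace * (b * x).trace + b.trace * (a * x).trace) *
      (a * b * x).trace + (a.trace ^ 2 * b.det * x.det + b.trace ^ 2 * a.det * x.det +
      (a * b).trace ^ 2 * x.det + (b * x).trace ^ 2 * a.det + (a * x).trace ^ 2 * b.det -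
      a.trace * b.trace * (a * b).trace * x.det +
      (a * b).trace * (b * x).trace * (a * x).trace - 4 * a.det * b.det * x.det) = 0 := by
  have h : x 1 1 = - x 0 0 := by
    rw [Matrix.trace_fin_two] at hx
    linear_combination hx
  simp only [Matrix.mul_apply, Fin.sum_univ_two, Matrix.trace_fin_two, Matrix.det_fin_two, h]
  ring

end Pool.Agent.Helper79.KF
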