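import Pool.Agent.Helper79.KF.Fact
import Pool.Agent.Helper79.KF.Pgl

/-!
# No projective representation of degree two
-/

set_option autoImplicit false

open Matrix
open scoped MatrixGroups

namespace Pool.Agent.Helper79.KF

variable {F : Type*} [Field F]

theorem tr1 (a b x : Matrix (Fin 2) (Fin 2) F) :
    (a * b * (a.trace • 1 - a) * x).trace = a.trace * (a * b * x).trace -
      (a * b).trace * (a * x).trace + a.det * (b.trace * x.trace - (b * x).trace) := by
  simp only [Matrix.mul_apply, Fin.sum_univ_two, Matrix.trace_fin_two, Matrix.det_fin_two,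
    Matrix.sub_apply, Matrix.smul_apply, Matrix.one_apply, smul_eq_mul]
  simp
  ring

theorem tr2 (a b x : Matrix (Fin 2) (Fin 2) F) :
    (b * a * x).trace + (a * b * x).trace = a.trace * (b * x).trace + b.trace * (a * x).trace +
      ((a * b).trace - a.trace * b.trace) * x.trace := by
  simp only [Matrix.mul_apply, Fin.sum_univ_two, Matrix.trace_fin_two]
  ring

theorem coe_inv_eq {a : GL (Fin 2) F} (hd : (a : Matrix (Fin 2) (Fin 2) F).det = 1) :
    ((a⁻¹ : GL (Fin 2) F) : Matrix (Fin 2) (Fin 2) F) =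
      (a : Matrix (Fin 2) (Fin 2) F).trace • 1 - (a : Matrix (Fin 2) (Fin 2) F) := by
  have h : (a : Matrix (Fin 2) (Fin 2) F) *
      ((a : Matrix (Fin 2) (Fin 2) F).trace • 1 - (a : Matrix (Fin 2) (Fin 2) F)) = 1 := by
    rw [Matrix.det_fin_two] at hd
    ext i j
    fin_cases i <;> fin_cases j <;>
      simp [Matrix.mul_apply, Fin.sum_univ_two, Matrix.trace_fin_two] <;>
      first | linear_combination hd | ring1
  exact Units.inv_eq_of_mul_eq_one_right h

theorem pow3_pow2 {G : Type*} [Group G] {g : G} (h3 : g ^ 3 = 1) (h2 : g ^ 2 = 1) : g = 1 := by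
  have : g ^ 3 = g ^ 2 * g := pow_succ g 2
  rw [h3, h2, one_mul] at this
  exact this.symm

theorem conj_sq {G : Type*} [Group G] {g y : G} (h : (g * y * g⁻¹) ^ 2 = 1) : y ^ 2 = 1 := by
  have e : (g * y * g⁻¹) ^ 2 = g * y ^ 2 * g⁻¹ := by
    rw [pow_two, pow_two]; group
  rw [e] at h
  have : y ^ 2 = g⁻¹ * (g * y ^ 2 * g⁻¹) * g := by group
  rw [this, h]; group

/-- the trace of `ab` is a root of `2t² - 4t + 1` -/
theorem key {a b : GL (Fin 2) F} (ha : (a : Matrix (Fin 2) (Fin 2) F).trace = -1)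
    (hb : (b : Matrix (Fin 2) (Fin 2) F).trace = -1)
    (da : (a : Matrix (Fin 2) (Fin 2) F).det = 1) (db : (b : Matrix (Fin 2) (Fin 2) F).det = 1)
    (na : ProjGenLinGroup.mk a ≠ 1) (nb : ProjGenLinGroup.mk b ≠ 1) {C : PGL(2, F)}
    (h : Rel (ProjGenLinGroup.mk a) (ProjGenLinGroup.mk b) C) :
    2 * ((a : Matrix (Fin 2) (Fin 2) F) * b).trace ^ 2 -
      4 * ((a : Matrix (Fin 2) (Fin 2) F) * b).trace + 1 = 0 := by
  have hC : C ≠ 1 := by
    rintro rfl
    apply nb
    have := h.h1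
    rw [mul_one] at this
    exact pow3_pow2 h.b3 (conj_sq this)
  have inv2 : ∀ g : PGL(2, F), g * C = 1 → g ^ 2 = 1 := by
    intro g hg
    have : g = C⁻¹ := eq_inv_of_mul_eq_one_left hg
    rw [this, inv_pow, h.x2, inv_one]
  have hAC : ProjGenLinGroup.mk a * C ≠ 1 := fun e => na (pow3_pow2 h.a3 (inv2 _ e))
  have hBC : ProjGenLinGroup.mk b * C ≠ 1 := fun e => nb (pow3_pow2 h.b3 (inv2 _ e))
  have h1C : ProjGenLinGroup.mk a * ProjGenLinGroup.mk b * (ProjGenLinGroup.mk a)⁻¹ * C ≠ 1 :=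
    fun e => nb (pow3_pow2 h.b3 (conj_sq (inv2 _ e)))
  have h2C : ProjGenLinGroup.mk b * ProjGenLinGroup.mk a * (ProjGenLinGroup.mk b)⁻¹ * C ≠ 1 :=
    fun e => na (pow3_pow2 h.a3 (conj_sq (inv2 _ e)))
  obtain ⟨c, rfl⟩ := ProjGenLinGroup.mk_surjective C
  have tc := trace_of_mk_sq h.x2 hC
  have tac : ((a : Matrix (Fin 2) (Fin 2) F) * c).trace ^ 2 =
      (c : Matrix (Fin 2) (Fin 2) F).det := by
    have h2 := trace_of_mk_cube (G := a * c) (by rw [map_mul]; exact h.ax)
      (by rw [map_mul]; exact hAC)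
    rw [Units.val_mul, Matrix.det_mul, da, one_mul] at h2
    exact h2
  have tbc : ((b : Matrix (Fin 2) (Fin 2) F) * c).trace ^ 2 =
      (c : Matrix (Fin 2) (Fin 2) F).det := by
    have h2 := trace_of_mk_cube (G := b * c) (by rw [map_mul]; exact h.bx)
      (by rw [map_mul]; exact hBC)
    rw [Units.val_mul, Matrix.det_mul, db, one_mul] at h2
    exact h2
  have e1 := trace_of_mk_sq (G := a * b * a⁻¹ * c)
    (by simpa only [map_mul, map_inv] using h.h1) (by simpa only [map_mul, map_inv] using h1C)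
  have e2 := trace_of_mk_sq (G := b * a * b⁻¹ * c)
    (by simpa only [map_mul, map_inv] using h.h2) (by simpa only [map_mul, map_inv] using h2C)
  rw [Units.val_mul, Units.val_mul, Units.val_mul, coe_inv_eq da, tr1, ha, hb, da, tc] at e1
  rw [Units.val_mul, Units.val_mul, Units.val_mul, coe_inv_eq db, tr1, ha, hb, db, tc] at e2
  have e3 := tr2 (a : Matrix (Fin 2) (Fin 2) F) b c
  have e4 := fricke (a : Matrix (Fin 2) (Fin 2) F) b c tc
  have e5 : ((b : Matrix (Fin 2) (Fin 2) F) * a).trace =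
    ((a : Matrix (Fin 2) (Fin 2) F) * b).trace := Matrix.trace_mul_comm _ _
  rw [e5] at e2
  rw [ha, hb, tc] at e3
  rw [ha, hb, da, db, ← tac] at e4
  have hdc : (c : Matrix (Fin 2) (Fin 2) F).det ≠ 0 := by
    have := c.det.ne_zero
    simpa using this
  have hu : ((a : Matrix (Fin 2) (Fin 2) F) * c).trace ≠ 0 := by
    intro h0; rw [h0] at tac; apply hdc; rw [← tac]; ring
  have hv : (((b : Matrix (Fin 2) (Fin 2) F) * c).trace -
      ((a : Matrix (Fin 2) (Fin 2) F) * c).trace) *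
      (((b : Matrix (Fin 2) (Fin 2) F) * c).trace +
      ((a : Matrix (Fin 2) (Fin 2) F) * c).trace) = 0 := by
    linear_combination tbc - tac
  generalize ((a : Matrix (Fin 2) (Fin 2) F) * c).trace = u at *
  generalize ((b : Matrix (Fin 2) (Fin 2) F) * c).trace = v at *
  generalize ((a : Matrix (Fin 2) (Fin 2) F) * b * c).trace = s at *
  generalize ((b : Matrix (Fin 2) (Fin 2) F) * a * c).trace = s' at *
  generalize ((a : Matrix (Fin 2) (Fin 2) F) * b).trace = t at *
  have hs : s = -t * u - v := by linear_combination -e1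
  have hs' : s' = -s - v - u := by linear_combination e3
  rcases mul_eq_zero.1 hv with hv | hv
  · have hv : v = u := sub_eq_zero.1 hv
    subst hv
    exfalso
    apply hu
    have k1 : s = (t - 1) * v := by rw [hs'] at e2; linear_combination e2
    have k2 : 2 * t * v = 0 := by rw [hs] at k1; linear_combination -k1
    rw [k1] at e4
    have k3 : v ^ 2 = 0 := by linear_combination t * v * k2 - e4
    exact pow_eq_zero_iff (two_ne_zero) |>.1 k3
  · have hv : v = -u := eq_neg_of_add_eq_zero_left hv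
    subst hv
    have : (2 * t ^ 2 - 4 * t + 1) * u ^ 2 = 0 := by
      subst hs
      linear_combination e4
    exact (mul_eq_zero.1 this).resolve_right (pow_ne_zero 2 hu)

/-- an element of order three lifts to a matrix of trace `-1` and determinant `1` -/
theorem lift3 {A : PGL(2, F)} (h : A ^ 3 = 1) (hA : A ≠ 1) :
    ∃ a : GL (Fin 2) F, ProjGenLinGroup.mk a = A ∧
      (a : Matrix (Fin 2) (Fin 2) F).trace = -1 ∧ (a : Matrix (Fin 2) (Fin 2) F).det = 1 := by
  obtain ⟨g, rfl⟩ := ProjGenLinGroup.mk_surjective A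
  have h1 := trace_of_mk_cube h hA
  have hd : (g : Matrix (Fin 2) (Fin 2) F).det ≠ 0 := by
    have := g.det.ne_zero
    simpa using this
  have ht : (g : Matrix (Fin 2) (Fin 2) F).trace ≠ 0 := by
    intro h0; rw [h0] at h1; apply hd; rw [← h1]; ring
  set τ := (g : Matrix (Fin 2) (Fin 2) F).trace with hτ
  have hu : (-τ⁻¹) ≠ 0 := neg_ne_zero.2 (inv_ne_zero ht)
  refine ⟨g * .scalar (Fin 2) (Units.mk0 _ hu), ?_, ?_, ?_⟩
  · rw [map_mul, ProjGenLinGroup.mk_scalar, mul_one]
  · rw [Units.val_mul, Matrix.trace_fin_two]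
    rw [Matrix.trace_fin_two] at hτ
    simp [Matrix.mul_apply, Fin.sum_univ_two, Matrix.scalar]
    field_simp
    linear_combination hτ
  · rw [Units.val_mul, Matrix.det_mul, ← h1]
    simp [Matrix.scalar]
    field_simp

/-- **No projective representation.** -/
theorem no_pgl {A B C D : PGL(2, F)} (hC : Rel A B C) (hD : Rel A B⁻¹ D) : A = 1 := by
  by_contra hA
  have hB : B ≠ 1 := by
    rintro rfl
    apply hA
    have := hC.h2
    rw [one_mul, inv_one, mul_one] at this
    have h1 : A * C ≠ 1 ∨ A * C = 1 := (em _).symm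
    have h2 := hC.ax
    have h3 := pow3_pow2 h2 this
    have h4 : A = C⁻¹ := eq_inv_of_mul_eq_one_left h3
    apply pow3_pow2 hC.a3
    rw [h4, inv_pow, hC.x2, inv_one]
  obtain ⟨a, rfl, ta, da⟩ := lift3 hC.a3 hA
  obtain ⟨b, rfl, tb, db⟩ := lift3 hC.b3 hB
  have k1 := key ta tb da db hA hB hC
  have tb' : ((b⁻¹ : GL (Fin 2) F) : Matrix (Fin 2) (Fin 2) F).trace = -1 := by
    rw [coe_inv_eq db, Matrix.trace_sub, Matrix.trace_smul, Matrix.trace_one, tb]
    simp; ring
  have db' : ((b⁻¹ : GL (Fin 2) F) : Matrix (Fin 2) (Fin 2) F).det = 1 := by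
    have h : ((b⁻¹ * b : GL (Fin 2) F) : Matrix (Fin 2) (Fin 2) F).det = 1 := by
      rw [inv_mul_cancel]; simp
    rw [Units.val_mul, Matrix.det_mul, db, mul_one] at h
    exact h
  have nb' : ProjGenLinGroup.mk b⁻¹ ≠ 1 := by
    rw [map_inv]; exact inv_ne_one.2 hB
  have k2 := key (C := D) ta tb' da db' hA nb' (by rw [map_inv]; exact hD)
  have e : ((a : Matrix (Fin 2) (Fin 2) F) * (b⁻¹ : GL (Fin 2) F)).trace =
      1 - ((a : Matrix (Fin 2) (Fin 2) F) * b).trace := by
    rw [coe_inv_eq db, Matrix.mul_sub, Matrix.trace_sub, tb, Matrix.mul_smul, Matrix.trace_smul,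
      Matrix.mul_one, ta]
    simp
  rw [e] at k2
  set t := ((a : Matrix (Fin 2) (Fin 2) F) * b).trace
  have : (1 : F) = 0 := by
    linear_combination (-t ^ 2 * (1 + 2 * t)) * k1 + (t ^ 2 * (1 + 2 * t) - 4 * t ^ 2 - 1) * k2
  exact one_ne_zero this

end Pool.Agent.Helper79.KF
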