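import Pool.Agent.Helper79.KF.Norm
import Pool.Agent.Helper79.KF.TwoDim

/-!
# The 7-adic representation of `⟨A, B, C, F⟩`
-/

set_option autoImplicit false
set_option linter.unusedSimpArgs false
set_option linter.unusedVariables false

open Matrix
open scoped MatrixGroups

namespace Pool.Agent.Helper79.KF

section general

variable {F : Type*} [Field F]

theorem rel_of_traces {a b c : GL (Fin 2) F} (ha : (a : Matrix (Fin 2) (Fin 2) F).trace = -1)
    (hb : (b : Matrix (Fin 2) (Fin 2) F).trace = -1)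
    (da : (a : Matrix (Fin 2) (Fin 2) F).det = 1) (db : (b : Matrix (Fin 2) (Fin 2) F).det = 1)
    (dc : (c : Matrix (Fin 2) (Fin 2) F).det = 1)
    (tc : (c : Matrix (Fin 2) (Fin 2) F).trace = 0) {u : F} (hu : u ^ 2 = 1)
    (hac : ((a : Matrix (Fin 2) (Fin 2) F) * c).trace = u)
    (hbc : ((b : Matrix (Fin 2) (Fin 2) F) * c).trace = -u)
    (habc : ((a : Matrix (Fin 2) (Fin 2) F) * b * c).trace =
      (1 - ((a : Matrix (Fin 2) (Fin 2) F) * b).trace) * u) :
    Rel (ProjGenLinGroup.mk a) (ProjGenLinGroup.mk b) (ProjGenLinGroup.mk c) := by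
  have e3 := tr2 (a : Matrix (Fin 2) (Fin 2) F) b c
  rw [habc, ha, hb, tc, hac, hbc] at e3
  have e5 : ((b : Matrix (Fin 2) (Fin 2) F) * a).trace =
    ((a : Matrix (Fin 2) (Fin 2) F) * b).trace := Matrix.trace_mul_comm _ _
  constructor
  · exact mk_cube_of_trace (by rw [ha, da]; ring)
  · exact mk_cube_of_trace (by rw [hb, db]; ring)
  · exact mk_sq_of_trace tc
  · rw [← map_mul]
    apply mk_cube_of_trace
    rw [Units.val_mul, hac, Matrix.det_mul, da, dc, hu, one_mul]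
  · rw [← map_mul]
    apply mk_cube_of_trace
    rw [Units.val_mul, hbc, Matrix.det_mul, db, dc, neg_sq, hu, one_mul]
  · rw [← map_inv, ← map_mul, ← map_mul, ← map_mul]
    apply mk_sq_of_trace
    rw [Units.val_mul, Units.val_mul, Units.val_mul, coe_inv_eq da, tr1, ha, hb, da, tc, hac, hbc,
      habc]
    ring
  · rw [← map_inv, ← map_mul, ← map_mul, ← map_mul]
    apply mk_sq_of_trace
    rw [Units.val_mul, Units.val_mul, Units.val_mul, coe_inv_eq db, tr1, ha, hb, db, tc, hac, hbc,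
      e5]
    linear_combination -e3

end general

section matrices

variable {F : Type*} [Field F] {q : F}

/-- the equation of `q` -/
def Quart (q : F) : Prop := 2 * q ^ 4 - 4 * q ^ 3 + 5 * q ^ 2 - 4 * q + 2 = 0

/-- image of `A` -/
def mA : Matrix (Fin 2) (Fin 2) F := !![0, -1; 1, -1]

/-- image of `B` -/
def mB (q : F) : Matrix (Fin 2) (Fin 2) F := !![-1, q; -q⁻¹, 0]

/-- image of `C` -/
def mC (q : F) : Matrix (Fin 2) (Fin 2) F :=
  !![(-1 - q + q ^ 2 - q ^ 3) / (1 - q ^ 3), q * (2 - q) / (1 - q ^ 3);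
    -(2 - q) / (1 - q ^ 3), -((-1 - q + q ^ 2 - q ^ 3) / (1 - q ^ 3))]

/-- image of `F` -/
def mF (q : F) : Matrix (Fin 2) (Fin 2) F :=
  !![(1 - q + q ^ 2 + q ^ 3) / (1 - q ^ 3), q ^ 2 * (1 - 2 * q) / (1 - q ^ 3);
    -(q * (1 - 2 * q)) / (1 - q ^ 3), -((1 - q + q ^ 2 + q ^ 3) / (1 - q ^ 3))]

theorem trA : (mA : Matrix (Fin 2) (Fin 2) F).trace = -1 := by
  simp [mA, Matrix.trace_fin_two]

theorem detA : (mA : Matrix (Fin 2) (Fin 2) F).det = 1 := by
  simp [mA, Matrix.det_fin_two]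

theorem trB : (mB q).trace = -1 := by
  simp [mB, Matrix.trace_fin_two]

theorem detB (hq : q ≠ 0) : (mB q).det = 1 := by
  simp [mB, Matrix.det_fin_two, hq]

theorem trC : (mC q).trace = 0 := by
  simp [mC, Matrix.trace_fin_two]

theorem trF : (mF q).trace = 0 := by
  simp [mF, Matrix.trace_fin_two]

theorem detC (hP : Quart q) (h3 : 1 - q ^ 3 ≠ 0) : (mC q).det = 1 := by
  simp only [mC, Matrix.det_fin_two]
  simp
  field_simp
  unfold Quart at hP
  linear_combination (-(q ^ 2 + q + 1)) * hP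

theorem detF (hP : Quart q) (h3 : 1 - q ^ 3 ≠ 0) : (mF q).det = 1 := by
  simp only [mF, Matrix.det_fin_two]
  simp
  field_simp
  unfold Quart at hP
  linear_combination (-(q ^ 2 + q + 1)) * hP

theorem trAB : (mA * mB q).trace = q + q⁻¹ := by
  simp [mA, mB, Matrix.trace_fin_two, Matrix.mul_apply, Fin.sum_univ_two]
  ring

theorem trAC (h3 : 1 - q ^ 3 ≠ 0) : (mA * mC q).trace = 1 := by
  simp [mA, mC, Matrix.trace_fin_two, Matrix.mul_apply, Fin.sum_univ_two]
  field_simp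
  ring

theorem trBC (hq : q ≠ 0) (h3 : 1 - q ^ 3 ≠ 0) : (mB q * mC q).trace = -1 := by
  simp [mB, mC, Matrix.trace_fin_two, Matrix.mul_apply, Fin.sum_univ_two]
  field_simp
  ring

theorem trABC (hq : q ≠ 0) (h3 : 1 - q ^ 3 ≠ 0) :
    (mA * mB q * mC q).trace = 1 - (q + q⁻¹) := by
  simp [mA, mB, mC, Matrix.trace_fin_two, Matrix.mul_apply, Fin.sum_univ_two]
  field_simp
  ring

theorem trAF (h3 : 1 - q ^ 3 ≠ 0) : (mA * mF q).trace = 1 := by
  simp [mA, mF, Matrix.trace_fin_two, Matrix.mul_apply, Fin.sum_univ_two]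
  field_simp
  ring

theorem trBF (hq : q ≠ 0) (h3 : 1 - q ^ 3 ≠ 0) : (mB q * mF q).trace = -1 := by
  simp [mB, mF, Matrix.trace_fin_two, Matrix.mul_apply, Fin.sum_univ_two]
  field_simp
  ring

theorem trABF (hq : q ≠ 0) (h3 : 1 - q ^ 3 ≠ 0) :
    (mA * mB q * mF q).trace = (q + q⁻¹) - 1 := by
  simp [mA, mB, mF, Matrix.trace_fin_two, Matrix.mul_apply, Fin.sum_univ_two]
  field_simp
  ring

theorem trCF (hP : Quart q) (h3 : 1 - q ^ 3 ≠ 0) (h2 : q ^ 2 + q + 1 ≠ 0) :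
    (mC q * mF q).trace = 2 * (q ^ 2 - q + 1) / (q ^ 2 + q + 1) := by
  rw [eq_div_iff h2]
  simp [mC, mF, Matrix.trace_fin_two, Matrix.mul_apply, Fin.sum_univ_two]
  field_simp
  unfold Quart at hP
  linear_combination (-2 * (q ^ 2 + q + 1) * (q ^ 2 + q + 1)) * hP

theorem CF01 (h3 : 1 - q ^ 3 ≠ 0) :
    (mC q * mF q) 0 1 = -2 * q * (1 - q + q ^ 2) / (1 - q ^ 3) := by
  simp [mC, mF, Matrix.mul_apply, Fin.sum_univ_two]
  field_simp
  ring

end matrices

end Pool.Agent.Helper79.KF
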